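import Mathlib

set_option autoImplicit false

/-! Factorisation of the permutations of the integers which fix zero. -/

namespace Pool.Agent.U820.QP1

open Classical in
theorem exists_swap {α : Type} (S : Set α) (f : S → α) (hf : Function.Injective f)
    (hS : ∀ x, f x ∉ S) : ∃ p : Equiv.Perm α, (∀ x : S, p x = f x) ∧ (∀ x : S, p (f x) = x) ∧
      (∀ y, y ∉ S → (∀ x, f x ≠ y) → p y = y) := by
  let F : α → α := fun y => if h : y ∈ S then f ⟨y, h⟩ else
    if h' : ∃ x, f x = y then (Classical.choose h' : S).1 else y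
  have h1 : ∀ x : S, F x = f x := by
    intro x
    change (if h : (x : α) ∈ S then f ⟨x, h⟩ else _) = f x
    rw [dif_pos x.2]
  have h2 : ∀ x : S, F (f x) = x := by
    intro x
    change (if h : f x ∈ S then f ⟨f x, h⟩ else
      if h' : ∃ z, f z = f x then (Classical.choose h' : S).1 else f x) = x
    rw [dif_neg (hS x), dif_pos ⟨x, rfl⟩]
    have := Classical.choose_spec (⟨x, rfl⟩ : ∃ z, f z = f x)
    rw [hf this]
  have h3 : ∀ y, y ∉ S → (∀ x, f x ≠ y) → F y = y := by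
    intro y hy hy'
    change (if h : y ∈ S then f ⟨y, h⟩ else
      if h' : ∃ z, f z = y then (Classical.choose h' : S).1 else y) = y
    rw [dif_neg hy, dif_neg (by push Not; exact hy')]
  have hinv : Function.Involutive F := by
    intro y
    by_cases hy : y ∈ S
    · have := h1 ⟨y, hy⟩
      change F y = f ⟨y, hy⟩ at this
      rw [this, h2]
    · by_cases hy' : ∃ x, f x = y
      · obtain ⟨x, rfl⟩ := hy'
        rw [h2, h1]
      · push Not at hy'
        rw [h3 y hy hy', h3 y hy hy']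
  exact ⟨hinv.toPerm F, h1, h2, h3⟩

theorem exists_inj {S T : Set ℤ} (hT : T.Infinite) : ∃ f : S → ℤ, Function.Injective f ∧ ∀ x, f x ∈ T := by
  obtain ⟨e, he⟩ := exists_injective_nat S
  refine ⟨fun x => (hT.natEmbedding T (e x)).1, ?_, fun x => (hT.natEmbedding T (e x)).2⟩
  intro x y hxy
  exact he ((hT.natEmbedding T).injective (Subtype.ext hxy))

/-- `σ` moves only points of `S` -/
def fixC (S : Set ℤ) (σ : Equiv.Perm ℤ) : Prop := ∀ x, x ∉ S → σ x = x

theorem fixC_one (S : Set ℤ) : fixC S 1 := fun _ _ => rfl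

theorem fixC.mul {S : Set ℤ} {σ τ : Equiv.Perm ℤ} (h : fixC S σ) (h' : fixC S τ) : fixC S (σ * τ) := by
  intro x hx
  rw [Equiv.Perm.mul_apply, h' x hx, h x hx]

theorem fixC.inv {S : Set ℤ} {σ : Equiv.Perm ℤ} (h : fixC S σ) : fixC S σ⁻¹ := by
  intro x hx
  rw [Equiv.Perm.inv_eq_iff_eq, h x hx]

/-- three infinite sets which partition the nonzero integers -/
structure Part (A B C : Set ℤ) : Prop where
  cov : ∀ x, x ≠ 0 → x ∈ A ∨ x ∈ B ∨ x ∈ C
  ab : ∀ x, x ∈ A → x ∉ B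
  ac : ∀ x, x ∈ A → x ∉ C
  bc : ∀ x, x ∈ B → x ∉ C
  za : (0 : ℤ) ∉ A
  zb : (0 : ℤ) ∉ B
  zc : (0 : ℤ) ∉ C
  ia : A.Infinite
  ib : B.Infinite
  ic : C.Infinite

theorem fac3 {A B C : Set ℤ} (h : Part A B C) {σ : Equiv.Perm ℤ} (h0 : σ 0 = 0)
    (hM : {x | x ∈ A ∧ ∀ y ∈ C, σ y ≠ x}.Infinite) :
    ∃ q3 q4 q5 : Equiv.Perm ℤ, σ = q3 * q4 * q5 ∧ fixC (A ∪ C) q3 ∧ fixC (B ∪ C) q4 ∧
      fixC (A ∪ B) q5 := by
  obtain ⟨f, hf, hfT⟩ := exists_inj (S := {x | x ∈ C ∧ ∃ y ∈ C, σ y = x}) hM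
  obtain ⟨q, hq1, hq2, hq3⟩ := exists_swap _ f hf (fun x hx => h.ac _ (hfT x).1 hx.1)
  have hqf : fixC (A ∪ C) q := by
    intro x hx
    apply hq3
    · exact fun h1 => hx (Or.inr h1.1)
    · intro z hz
      exact hx (Or.inl (hz ▸ (hfT z).1))
  set σ' := q * σ with hσ'
  have h0' : σ' 0 = 0 := by
    rw [hσ', Equiv.Perm.mul_apply, h0]
    exact hqf 0 (fun h1 => h1.elim h.za h.zc)
  have hoff : ∀ x ∈ C, σ' x ∉ C := by
    intro x hx hx'
    rw [hσ', Equiv.Perm.mul_apply] at hx'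
    by_cases hy : σ x ∈ C
    · have := hq1 ⟨σ x, hy, x, hx, rfl⟩
      change q (σ x) = _ at this
      rw [this] at hx'
      exact h.ac _ (hfT _).1 hx'
    · have : q (σ x) = σ x := by
        apply hq3
        · exact fun h1 => hy h1.1
        · intro z hz
          exact (hfT z).2 x hx hz.symm
      rw [this] at hx'
      exact hy hx'
  obtain ⟨p1, ha1, hb1, hc1⟩ := exists_swap {x | x ∈ C ∧ σ' x ∈ A} (fun x => σ' x)
    (fun x y hxy => Subtype.ext (σ'.injective hxy)) (fun x hx => h.ac _ x.2.2 hx.1)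
  obtain ⟨p2, ha2, hb2, hc2⟩ := exists_swap {x | x ∈ C ∧ σ' x ∈ B} (fun x => σ' x)
    (fun x y hxy => Subtype.ext (σ'.injective hxy)) (fun x hx => h.bc _ x.2.2 hx.1)
  have hp1 : fixC (A ∪ C) p1 := by
    intro x hx
    apply hc1
    · exact fun h1 => hx (Or.inr h1.1)
    · intro z hz
      exact hx (Or.inl (hz ▸ z.2.2))
  have hp2 : fixC (B ∪ C) p2 := by
    intro x hx
    apply hc2
    · exact fun h1 => hx (Or.inr h1.1)
    · intro z hz
      exact hx (Or.inl (hz ▸ z.2.2))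
  have hr : fixC (A ∪ B) (p2 * p1 * σ') := by
    intro x hx
    rw [Equiv.Perm.mul_apply, Equiv.Perm.mul_apply]
    by_cases hx0 : x = 0
    · subst hx0
      rw [h0', hp1 0 (fun h1 => h1.elim h.za h.zc), hp2 0 (fun h1 => h1.elim h.zb h.zc)]
    · have hxC : x ∈ C := by
        rcases h.cov x hx0 with h1 | h1 | h1
        · exact absurd (Or.inl h1) hx
        · exact absurd (Or.inr h1) hx
        · exact h1
      have h1 : σ' x ≠ 0 := fun h2 => hx0 (σ'.injective (h2.trans h0'.symm))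
      rcases h.cov _ h1 with h2 | h2 | h2
      · have h3 := hb1 ⟨x, hxC, h2⟩
        change p1 (σ' x) = x at h3
        rw [h3]
        apply hc2
        · exact fun h4 => h.ab _ h2 h4.2
        · rintro ⟨z, hz, hz'⟩ h4
          change σ' z = x at h4
          rw [h4] at hz'
          exact h.bc _ hz' hxC
      · have h3 : p1 (σ' x) = σ' x := by
          apply hc1
          · exact fun h4 => h.bc _ h2 h4.1
          · rintro ⟨z, hz, hz'⟩ h4
            change σ' z = σ' x at h4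
            rw [h4] at hz'
            exact h.ab _ hz' h2
        rw [h3]
        exact hb2 ⟨x, hxC, h2⟩
      · exact absurd h2 (hoff x hxC)
  refine ⟨q⁻¹ * p1⁻¹, p2⁻¹, p2 * p1 * σ', ?_, hqf.inv.mul hp1.inv, hp2.inv, hr⟩
  rw [hσ']
  group

theorem fac5 {A B C : Set ℤ} (h : Part A B C) {σ : Equiv.Perm ℤ} (h0 : σ 0 = 0) :
    ∃ q1 q2 q3 q4 q5 : Equiv.Perm ℤ, σ = q1 * q2 * q3 * q4 * q5 ∧ fixC (A ∪ C) q1 ∧
      fixC (A ∪ B) q2 ∧ fixC (A ∪ C) q3 ∧ fixC (B ∪ C) q4 ∧ fixC (A ∪ B) q5 := by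
  by_cases hA : {x | x ∈ A ∧ ∀ y ∈ C, σ y ≠ x}.Infinite
  · obtain ⟨q3, q4, q5, e, h3, h4, h5⟩ := fac3 h h0 hA
    exact ⟨1, 1, q3, q4, q5, by rw [one_mul, one_mul]; exact e, fixC_one _, fixC_one _, h3, h4, h5⟩
  by_cases hC : {x | x ∈ C ∧ ∀ y ∈ C, σ y ≠ x}.Infinite
  · obtain ⟨f, hf, hfT⟩ := exists_inj (S := C) h.ia
    obtain ⟨c, hc1, hc2, hc3⟩ := exists_swap _ f hf (fun x hx => h.ac _ (hfT x) hx)
    have hcf : fixC (A ∪ C) c := by
      intro x hx
      apply hc3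
      · exact fun h1 => hx (Or.inr h1)
      · intro z hz
        exact hx (Or.inl (hz ▸ hfT z))
    have h1 : {x | x ∈ A ∧ ∀ y ∈ C, (c * σ) y ≠ x}.Infinite := by
      refine (hC.image (c.injective.injOn)).mono ?_
      rintro _ ⟨x, ⟨hx, hx'⟩, rfl⟩
      refine ⟨?_, fun y hy e => hx' y hy (c.injective e)⟩
      have := hc1 ⟨x, hx⟩
      change c x = _ at this
      rw [this]
      exact hfT _
    obtain ⟨q3, q4, q5, e, h3, h4, h5⟩ := fac3 h (σ := c * σ) (by
      rw [Equiv.Perm.mul_apply, h0]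
      exact hcf 0 (fun h1 => h1.elim h.za h.zc)) h1
    refine ⟨c⁻¹, 1, q3, q4, q5, ?_, hcf.inv, fixC_one _, h3, h4, h5⟩
    rw [mul_one, mul_assoc, mul_assoc, ← mul_assoc q3, ← e, inv_mul_cancel_left]
  have hB : {x | x ∈ B ∧ ∀ y ∈ C, σ y ≠ x}.Infinite := by
    intro hB
    rw [Set.not_infinite] at hA hC
    have h1 : (σ '' A).Infinite := h.ia.image σ.injective.injOn
    apply h1
    refine ((hA.union hB).union hC).subset ?_
    rintro _ ⟨x, hx, rfl⟩
    have h2 : ∀ y ∈ C, σ y ≠ σ x := by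
      intro y hy e
      rw [σ.injective e] at hy
      exact h.ac _ hx hy
    have h3 : σ x ≠ 0 := by
      intro e
      have : x = 0 := σ.injective (e.trans h0.symm)
      rw [this] at hx
      exact h.za hx
    rcases h.cov _ h3 with h4 | h4 | h4
    · exact Or.inl (Or.inl ⟨h4, h2⟩)
    · exact Or.inl (Or.inr ⟨h4, h2⟩)
    · exact Or.inr ⟨h4, h2⟩
  obtain ⟨f, hf, hfT⟩ := exists_inj (S := B) h.ia
  obtain ⟨c, hc1, hc2, hc3⟩ := exists_swap _ f hf (fun x hx => h.ab _ (hfT x) hx)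
  have hcf : fixC (A ∪ B) c := by
    intro x hx
    apply hc3
    · exact fun h1 => hx (Or.inr h1)
    · intro z hz
      exact hx (Or.inl (hz ▸ hfT z))
  have h1 : {x | x ∈ A ∧ ∀ y ∈ C, (c * σ) y ≠ x}.Infinite := by
    refine (hB.image (c.injective.injOn)).mono ?_
    rintro _ ⟨x, ⟨hx, hx'⟩, rfl⟩
    refine ⟨?_, fun y hy e => hx' y hy (c.injective e)⟩
    have := hc1 ⟨x, hx⟩
    change c x = _ at this
    rw [this]
    exact hfT _
  obtain ⟨q3, q4, q5, e, h3, h4, h5⟩ := fac3 h (σ := c * σ) (by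
    rw [Equiv.Perm.mul_apply, h0]
    exact hcf 0 (fun h1 => h1.elim h.za h.zb)) h1
  refine ⟨1, c⁻¹, q3, q4, q5, ?_, fixC_one _, hcf.inv, h3, h4, h5⟩
  rw [one_mul, mul_assoc, mul_assoc, ← mul_assoc q3, ← e, inv_mul_cancel_left]

/-- the class of `i` modulo three, without zero -/
def cls (i : ℤ) : Set ℤ := {x | x ≠ 0 ∧ x % 3 = i}

theorem part_cls : Part (cls 0) (cls 1) (cls 2) where
  cov := fun x hx => by
    rcases (show x % 3 = 0 ∨ x % 3 = 1 ∨ x % 3 = 2 by omega) with h | h | h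
    · exact Or.inl ⟨hx, h⟩
    · exact Or.inr (Or.inl ⟨hx, h⟩)
    · exact Or.inr (Or.inr ⟨hx, h⟩)
  ab := by rintro x ⟨_, h⟩ ⟨_, h'⟩; omega
  ac := by rintro x ⟨_, h⟩ ⟨_, h'⟩; omega
  bc := by rintro x ⟨_, h⟩ ⟨_, h'⟩; omega
  za := fun h => h.1 rfl
  zb := fun h => h.1 rfl
  zc := fun h => h.1 rfl
  ia := Set.infinite_of_injective_forall_mem (f := fun n : ℕ => (3 * n + 3 : ℤ))
    (fun a b h => by simp only [] at h; omega) (fun n => ⟨by omega, by omega⟩)
  ib := Set.infinite_of_injective_forall_mem (f := fun n : ℕ => (3 * n + 1 : ℤ))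
    (fun a b h => by simp only [] at h; omega) (fun n => ⟨by omega, by omega⟩)
  ic := Set.infinite_of_injective_forall_mem (f := fun n : ℕ => (3 * n + 2 : ℤ))
    (fun a b h => by simp only [] at h; omega) (fun n => ⟨by omega, by omega⟩)

end Pool.Agent.U820.QP1
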