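import Pool.Agent.U820.QP1.Diss
import Pool.Agent.U820.QP1.Fac

set_option autoImplicit false

/-! Every length function on the group is bounded on the stabilizer of the ball. -/

namespace Pool.Agent.U820.QP1

theorem bdd_rig {L : G → ℕ} (hL : LF L) : ∃ C, ∀ σ : Top, L (rig σ) ≤ C := by
  have hp := part_cls
  obtain ⟨C1, h1⟩ := bdd_PS (S := cls 0 ∪ cls 2) (fun h => h.elim hp.za hp.zc)
    (hp.ib.mono (fun x hx => ⟨fun h => h.elim (fun h => hp.ab x h hx) (fun h => hp.bc x hx h), hx.1⟩)) hL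
  obtain ⟨C2, h2⟩ := bdd_PS (S := cls 0 ∪ cls 1) (fun h => h.elim hp.za hp.zb)
    (hp.ic.mono (fun x hx => ⟨fun h => h.elim (fun h => hp.ac x h hx) (fun h => hp.bc x h hx), hx.1⟩)) hL
  obtain ⟨C3, h3⟩ := bdd_PS (S := cls 1 ∪ cls 2) (fun h => h.elim hp.zb hp.zc)
    (hp.ia.mono (fun x hx => ⟨fun h => h.elim (fun h => hp.ab x hx h) (fun h => hp.ac x hx h), hx.1⟩)) hL
  refine ⟨C1 + C2 + C1 + C3 + C2, fun σ => ?_⟩
  have hf : ∀ m, ∃ q : Equiv.Perm ℤ × Equiv.Perm ℤ × Equiv.Perm ℤ × Equiv.Perm ℤ × Equiv.Perm ℤ,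
      σ.1 m = q.1 * q.2.1 * q.2.2.1 * q.2.2.2.1 * q.2.2.2.2 ∧ fixC (cls 0 ∪ cls 2) q.1 ∧
      fixC (cls 0 ∪ cls 1) q.2.1 ∧ fixC (cls 0 ∪ cls 2) q.2.2.1 ∧ fixC (cls 1 ∪ cls 2) q.2.2.2.1 ∧
      fixC (cls 0 ∪ cls 1) q.2.2.2.2 := by
    intro m
    obtain ⟨q1, q2, q3, q4, q5, h⟩ := fac5 hp (σ.2 m)
    exact ⟨(q1, q2, q3, q4, q5), h⟩
  choose q hq using hf
  let t1 : Top := ⟨fun m => (q m).1, fun m => (hq m).2.1 0 (fun h => h.elim hp.za hp.zc)⟩
  let t2 : Top := ⟨fun m => (q m).2.1, fun m => (hq m).2.2.1 0 (fun h => h.elim hp.za hp.zb)⟩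
  let t3 : Top := ⟨fun m => (q m).2.2.1, fun m => (hq m).2.2.2.1 0 (fun h => h.elim hp.za hp.zc)⟩
  let t4 : Top := ⟨fun m => (q m).2.2.2.1, fun m => (hq m).2.2.2.2.1 0 (fun h => h.elim hp.zb hp.zc)⟩
  let t5 : Top := ⟨fun m => (q m).2.2.2.2, fun m => (hq m).2.2.2.2.2 0 (fun h => h.elim hp.za hp.zb)⟩
  have he : σ = t1 * t2 * t3 * t4 * t5 := by
    apply Subtype.ext
    funext m
    exact (hq m).1
  have e1 : L (rig t1) ≤ C1 := h1 _ (rig_mem_PS t1 (fun m e he => (hq m).2.1 e he))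
  have e2 : L (rig t2) ≤ C2 := h2 _ (rig_mem_PS t2 (fun m e he => (hq m).2.2.1 e he))
  have e3 : L (rig t3) ≤ C1 := h1 _ (rig_mem_PS t3 (fun m e he => (hq m).2.2.2.1 e he))
  have e4 : L (rig t4) ≤ C3 := h3 _ (rig_mem_PS t4 (fun m e he => (hq m).2.2.2.2.1 e he))
  have e5 : L (rig t5) ≤ C2 := h2 _ (rig_mem_PS t5 (fun m e he => (hq m).2.2.2.2.2 e he))
  rw [he, rig_mul, rig_mul, rig_mul, rig_mul]
  have f1 := hL.mul (rig t1 * rig t2 * rig t3 * rig t4) (rig t5)
  have f2 := hL.mul (rig t1 * rig t2 * rig t3) (rig t4)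
  have f3 := hL.mul (rig t1 * rig t2) (rig t3)
  have f4 := hL.mul (rig t1) (rig t2)
  omega

/-- the function with value `e` at `m` and zero elsewhere -/
def sg (m : ℤ) (e : ℤ) : Om := ⟨fun n => if n = m then e else 0, ⟨m, fun n hn => if_neg (by omega)⟩⟩

theorem sg_self (m e : ℤ) : (sg m e).1 m = e := if_pos rfl

theorem sg_other {m e n : ℤ} (h : n ≠ m) : (sg m e).1 n = 0 := if_neg h

theorem sg_zero (m : ℤ) : sg m 0 = 0 := by
  apply Subtype.ext
  funext n
  change (if n = m then (0 : ℤ) else 0) = 0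
  split_ifs <;> rfl

theorem R_sg (m e : ℤ) : R m (sg m e) 0 := fun j hj => if_neg (by omega)

theorem R_zero_act {a : G} (hk : kk a = 0) (h0 : act a 0 = 0) {n : ℤ} {f : Om} :
    R n (act a f) 0 ↔ R n f 0 := by
  have := R_act a (n := n) (f := f) (g := 0)
  rw [hk, add_zero, h0] at this
  exact this.symm

theorem top_val {a : G} (hk : kk a = 0) {m : ℤ} {f : Om} (hf : R m f 0) :
    (act a f).1 m = (act a (sg m (f.1 m))).1 m := by
  have h1 : R (m - 1) f (sg m (f.1 m)) := by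
    intro j hj
    rcases eq_or_lt_of_le (show m ≤ j by omega) with e | e
    · rw [← e, sg_self]
    · rw [hf j e, sg_other (by omega)]
      rfl
  have h2 := (R_act a).1 h1
  rw [hk, add_zero] at h2
  exact h2 m (by omega)

/-- the permutations of the top values given by an element which fixes `0` -/
def topP (a : G) (hk : kk a = 0) (h0 : act a 0 = 0) : Top :=
  ⟨fun m =>
    { toFun := fun e => (act a (sg m e)).1 m
      invFun := fun e => (act a⁻¹ (sg m e)).1 m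
      left_inv := fun e => by
        have h1 : R m (act a (sg m e)) 0 := (R_zero_act hk h0).2 (R_sg _ _)
        have h2 := top_val (a := a⁻¹) (by rw [kk_inv, hk, neg_zero]) h1
        change (act a⁻¹ (sg m ((act a (sg m e)).1 m))).1 m = e
        rw [← h2, act_inv_act, sg_self]
      right_inv := fun e => by
        have hk' : kk a⁻¹ = 0 := by rw [kk_inv, hk, neg_zero]
        have h0' : act a⁻¹ 0 = 0 := by
          conv_lhs => rw [← h0]
          rw [act_inv_act]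
        have h1 : R m (act a⁻¹ (sg m e)) 0 := (R_zero_act hk' h0').2 (R_sg _ _)
        have h2 := top_val hk h1
        change (act a (sg m ((act a⁻¹ (sg m e)).1 m))).1 m = e
        rw [← h2, act_act_inv, sg_self] }, fun m => by
    change (act a (sg m 0)).1 m = 0
    rw [sg_zero, h0]
    rfl⟩

theorem topP_apply (a : G) (hk : kk a = 0) (h0 : act a 0 = 0) {f : Om} {m : ℕ} (hf : R m f 0) :
    (act a f).1 m = (topP a hk h0).1 m (f.1 m) := top_val hk hf

open Classical in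
/-- Gluing `a` on the keys in `K` and the identity elsewhere. -/
theorem glue_two (K : Set (ℕ × ℤ)) (hK : ∀ e e' : ℤ, (0, e) ∈ K ↔ (0, e') ∈ K) {a : G}
    (ha : a ∈ A0) (h1 : ∀ f, key f ∈ K → key (act a f) ∈ K) (h2 : ∀ f, key f ∈ K → key (act a⁻¹ f) ∈ K) :
    ∃ b : G, kk b = 0 ∧ (∀ f, key f ∈ K → act b f = act a f) ∧ (∀ f, key f ∉ K → act b f = f) ∧
      (∀ f, key f ∈ K → act b⁻¹ f = act a⁻¹ f) ∧ (∀ f, key f ∉ K → act b⁻¹ f = f) := by
  let κ : ℕ × ℤ → Prop := fun k => k ∈ K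
  let g : Prop → G := fun p => if p then a else 1
  have hgt : ∀ p, p → g p = a := fun p hp => if_pos hp
  have hgf : ∀ p, ¬ p → g p = 1 := fun p hp => if_neg hp
  have hG : Glue κ g := by
    refine ⟨fun e e' => propext (hK e e'), fun i => ?_, fun f => ?_, fun f => ?_⟩
    · by_cases h : i
      · rw [hgt i h]; exact ha.1
      · rw [hgf i h]; rfl
    · by_cases h : key f ∈ K
      · rw [hgt _ h]
        refine ⟨nu_act ha f, ?_⟩
        change (key (act a f) ∈ K) = (key f ∈ K)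
        exact propext ⟨fun _ => h, fun _ => h1 f h⟩
      · rw [hgf _ h]
        exact ⟨rfl, rfl⟩
    · by_cases h : key f ∈ K
      · rw [hgt _ h]
        refine ⟨nu_act (A0.inv_mem ha) f, ?_⟩
        change (key (act a⁻¹ f) ∈ K) = (key f ∈ K)
        exact propext ⟨fun _ => h, fun _ => h2 f h⟩
      · rw [hgf _ h, inv_one]
        exact ⟨rfl, rfl⟩
  refine ⟨hG.el, rfl, fun f hf => ?_, fun f hf => ?_, fun f hf => ?_, fun f hf => ?_⟩
  · rw [hG.act_el, hgt _ hf]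
  · rw [hG.act_el, hgf _ hf]; rfl
  · rw [hG.act_inv_el, hgt _ hf]
  · rw [hG.act_inv_el, hgf _ hf, inv_one]; rfl

theorem bdd_A0 {L : G → ℕ} (hL : LF L) : ∃ C, ∀ x ∈ A0, L x ≤ C := by
  have hp := part_cls
  obtain ⟨C1, h1⟩ := bdd_PS (S := {1}) (by simp)
    (hp.ia.mono (fun x hx => ⟨fun h => by rw [Set.mem_singleton_iff.1 h] at hx; exact absurd hx.2 (by decide), hx.1⟩)) hL
  obtain ⟨C2, h2⟩ := bdd_rig hL
  obtain ⟨C3, h3⟩ := bdd_PS (S := cls 0 ∪ cls 1) (fun h => h.elim hp.za hp.zb)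
    (hp.ic.mono (fun x hx => ⟨fun h => h.elim (fun h => hp.ac x h hx) (fun h => hp.bc x h hx), hx.1⟩)) hL
  obtain ⟨C4, h4⟩ := bdd_PS (S := cls 2) hp.zc
    (hp.ia.mono (fun x hx => ⟨fun h => hp.ac x hx h, hx.1⟩)) hL
  refine ⟨(C1 + 2 * L (tr (sg 1 1))) + C2 + C3 + C4, fun a ha => ?_⟩
  -- the part of `a` on the ball
  obtain ⟨b, hb, hb1, hb2, hb3, hb4⟩ := glue_two {k | k.1 = 0} (fun _ _ => Iff.rfl) ha
    (fun f hf => by
      change nu (act a f) = 0
      rw [nu_act ha]; exact hf)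
    (fun f hf => by
      change nu (act a⁻¹ f) = 0
      rw [nu_act (A0.inv_mem ha)]; exact hf)
  have hLb : L b ≤ C1 + 2 * L (tr (sg 1 1)) := by
    have h5 : tr (sg 1 1) * b * (tr (sg 1 1))⁻¹ ∈ PS {1} := by
      refine ⟨by rw [kk_mul, kk_mul, kk_inv, hb]; ring, fun f hf => ?_⟩
      rw [act_mul, act_mul, hb2, act_act_inv]
      intro h6
      apply hf
      have h7 : f = sg 1 1 + act (tr (sg 1 1))⁻¹ f := by
        rw [← act_tr, act_act_inv]
      set f' := act (tr (sg 1 1))⁻¹ f with hf'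
      have h8 : nu f' = 0 := h6
      have h9 : R 0 f' 0 := by
        have := nu_spec f'
        rw [h8] at this
        exact this
      have h10 : f.1 1 = 1 := by
        rw [h7]
        change (sg 1 1).1 1 + f'.1 1 = 1
        rw [sg_self, h9 1 (by norm_num)]
        rfl
      have h11 : nu f = 1 := by
        apply nu_eq _ _ le_rfl
        · intro j hj
          have hj' : 1 < j := by exact_mod_cast hj
          rw [h7]
          change (sg 1 1).1 j + f'.1 j = 0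
          rw [sg_other (by omega), h9 j (by omega)]
          rfl
        · rw [Nat.cast_one, h10]
          exact one_ne_zero
      refine ⟨by rw [h11], ?_⟩
      rw [h11, Nat.cast_one, h10]
      rfl
    have h6 := h1 _ h5
    have h7 : b = (tr (sg 1 1))⁻¹ * (tr (sg 1 1) * b * (tr (sg 1 1))⁻¹) * tr (sg 1 1) := by group
    have a1 := hL.mul ((tr (sg 1 1))⁻¹ * (tr (sg 1 1) * b * (tr (sg 1 1))⁻¹)) (tr (sg 1 1))
    have a2 := hL.mul ((tr (sg 1 1))⁻¹) (tr (sg 1 1) * b * (tr (sg 1 1))⁻¹)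
    have a3 := hL.inv (tr (sg 1 1))
    rw [← h7] at a1
    omega
  -- the rest
  set c := b⁻¹ * a with hc
  have hck : kk c = 0 := by rw [hc, kk_mul, kk_inv, hb, ha.1]; rfl
  have hcin : ∀ f, nu f = 0 → act c f = f := by
    intro f hf
    rw [hc, act_mul, hb3, act_inv_act]
    change nu (act a f) = 0
    rw [nu_act ha, hf]
  have hc0 : act c 0 = 0 := hcin 0 nu_zero
  have hcA : c ∈ A0 := mem_A0_of_fix hck hc0
  set σ := topP c hck hc0 with hσ
  set d := (rig σ)⁻¹ * c with hd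
  have hdk : kk d = 0 := by rw [hd, kk_mul, kk_inv, kk_rig, hck]; rfl
  have hdin : ∀ f, nu f = 0 → act d f = f := by
    intro f hf
    rw [hd, act_mul, hcin f hf, rig_inv, rig_fix _ (Or.inl hf)]
  have hdA : d ∈ A0 := mem_A0_of_fix hdk (hdin 0 nu_zero)
  have hdtop : ∀ f, 1 ≤ nu f → (act d f).1 (nu f) = f.1 (nu f) := by
    intro f hf
    rw [hd, act_mul, rig_inv]
    have h5 := rig_top σ⁻¹ (f := act c f) (by rw [nu_act hcA]; exact hf)
    rw [nu_act hcA] at h5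
    rw [h5, topP_apply c hck hc0 (nu_spec f), ← hσ]
    exact (σ.1 (nu f)).symm_apply_apply _
  have hdkey : ∀ f, key (act d f) = key f := by
    intro f
    by_cases hf : 1 ≤ nu f
    · unfold key
      rw [nu_act hdA, hdtop f hf]
    · rw [hdin f (by omega)]
  have hdkey' : ∀ f, key (act d⁻¹ f) = key f := by
    intro f
    have := hdkey (act d⁻¹ f)
    rw [act_act_inv] at this
    exact this.symm
  obtain ⟨u, hu, hu1, hu2, hu3, hu4⟩ := glue_two {k | 1 ≤ k.1 ∧ k.2 ∈ cls 0 ∪ cls 1}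
    (fun e e' => by simp) hdA (fun f hf => by rw [hdkey]; exact hf)
    (fun f hf => by rw [hdkey']; exact hf)
  have hLu : L u ≤ C3 := h3 u ⟨hu, fun f hf => hu2 f hf⟩
  have hLv : L (u⁻¹ * d) ≤ C4 := by
    apply h4
    refine ⟨by rw [kk_mul, kk_inv, hu, hdk]; rfl, fun f hf => ?_⟩
    rw [act_mul]
    by_cases h5 : 1 ≤ nu f
    · have h6 : key f ∈ {k : ℕ × ℤ | 1 ≤ k.1 ∧ k.2 ∈ cls 0 ∪ cls 1} := by
        refine ⟨h5, ?_⟩
        rcases hp.cov _ (nu_top h5) with h7 | h7 | h7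
        · exact Or.inl h7
        · exact Or.inr h7
        · exact absurd ⟨h5, h7⟩ hf
      rw [hu3 _ (by rw [hdkey]; exact h6), act_inv_act]
    · rw [hdin f (by omega)]
      exact hu4 f (fun h6 => h5 h6.1)
  have e : a = b * (rig σ * (u * (u⁻¹ * d))) := by rw [hd, hc]; group
  have f1 := hL.mul b (rig σ * (u * (u⁻¹ * d)))
  have f2 := hL.mul (rig σ) (u * (u⁻¹ * d))
  have f3 := hL.mul u (u⁻¹ * d)
  have f4 := h2 σ
  rw [← e] at f1
  omega

end Pool.Agent.U820.QP1
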