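import Pool.Agent.U820.QP1.Lin
import Pool.Agent.U820.QP1.Bdd

set_option autoImplicit false

/-! Uniqueness of the quasi-parabolic generating set up to equivalence. -/

namespace Pool.Agent.U820.QP1

open Pool.Agent.R640 (len gp)

theorem lf_len {Y : Set G} (hY : Subgroup.closure Y = ⊤) : LF (len Y) :=
  ⟨R640.len_mul_le hY, R640.len_inv hY⟩

theorem lox_inv {Y : Set G} (hY : Subgroup.closure Y = ⊤) {g : G} (h : Lox Y g) : Lox Y g⁻¹ := by
  obtain ⟨c, hc, h⟩ := h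
  refine ⟨c, hc, fun n => ?_⟩
  rw [inv_pow, R640.len_inv hY]
  exact h n

theorem pow_struct {g : G} (hg : 0 ≤ kk g) : ∃ n : ℕ, ∀ m : ℕ,
    T (-(kk g * m)) * (T (-(n : ℤ)) * g * T n) ^ m ∈ A0 := by
  refine ⟨nu (act g 0), fun m => ?_⟩
  set g' := T (-(nu (act g 0) : ℤ)) * g * T (nu (act g 0)) with hg'
  have hk : kk g' = kk g := by
    rw [hg', kk_mul, kk_mul, kk_T, kk_T]
    ring
  have h1 : R 0 (act g' 0) 0 := by
    rw [hg', act_mul, act_mul, act_T_zero]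
    have h2 := (R_act (T (-(nu (act g 0) : ℤ)))).1 (nu_spec (act g 0))
    rw [kk_T, act_T_zero, add_neg_cancel] at h2
    exact h2
  have h2 : ∀ m : ℕ, R (kk g * m) (act (g' ^ m) 0) 0 := by
    intro m
    induction m with
    | zero =>
      rw [pow_zero, act_one]
      exact R.refl _ _
    | succ m ih =>
      rw [pow_succ', act_mul]
      have h3 := (R_act g').1 ih
      rw [hk] at h3
      have h4 : kk g * (m : ℤ) + kk g = kk g * ((m + 1 : ℕ) : ℤ) := by push_cast; ring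
      rw [h4] at h3
      exact h3.trans (h1.mono (mul_nonneg hg (Int.natCast_nonneg _)))
  refine ⟨?_, ?_⟩
  · rw [kk_mul, kk_T, kk_pow, hk]
    ring
  · have h3 := (R_act (T (-(kk g * m)))).1 (h2 m)
    rw [kk_T, act_T_zero, add_neg_cancel, ← act_mul] at h3
    have h4 : (nu (act (T (-(kk g * m)) * g' ^ m) 0) : ℤ) ≤ 0 := nu_le.2 ⟨le_rfl, h3⟩
    omega

theorem len_pow_le' {Y : Set G} (hY : Subgroup.closure Y = ⊤) {C₀ : ℕ} (hC : ∀ y ∈ A0, len Y y ≤ C₀)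
    {g : G} (hg : 0 ≤ kk g) : ∃ C : ℕ, ∀ m : ℕ, len Y (g ^ m) ≤ len Y (T (kk g * m)) + C := by
  obtain ⟨n, hn⟩ := pow_struct hg
  refine ⟨C₀ + 2 * len Y (T n), fun m => ?_⟩
  have h1 := hC _ (hn m)
  have e1 : (T (-(n : ℤ)) * g * T n) ^ m = T (-(n : ℤ)) * g ^ m * T n := by
    have : T (n : ℤ) = (T (-(n : ℤ)))⁻¹ := by rw [T_inv, neg_neg]
    rw [this, conj_pow]
  rw [e1] at h1
  set y := T (-(kk g * m)) * (T (-(n : ℤ)) * g ^ m * T n) with hy
  have e2 : g ^ m = T n * (T (kk g * m) * y) * (T n)⁻¹ := by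
    rw [hy, ← T_inv, ← T_inv]
    group
  have a1 := R640.len_mul_le hY (T n * (T (kk g * m) * y)) (T n)⁻¹
  have a2 := R640.len_mul_le hY (T n) (T (kk g * m) * y)
  have a3 := R640.len_mul_le hY (T (kk g * m)) y
  have a4 := R640.len_inv hY (T n)
  rw [← e2] at a1
  omega

theorem lox_kk {Y : Set G} (hY : Subgroup.closure Y = ⊤) {C₀ : ℕ} (hC : ∀ y ∈ A0, len Y y ≤ C₀)
    {g : G} (hg : 0 ≤ kk g) (hl : Lox Y g) :
    0 < kk g ∧ ∃ c C : ℝ, 0 < c ∧ ∀ n : ℕ, c * n - C ≤ len Y (T 1 ^ n) := by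
  obtain ⟨C, h⟩ := len_pow_le' hY hC hg
  obtain ⟨c, hc, h2⟩ := hl
  have hpos : 0 < kk g := by
    rcases hg.lt_or_eq with h0 | h0
    · exact h0
    · exfalso
      obtain ⟨m, hm⟩ := exists_nat_gt ((C : ℝ) / c)
      rw [div_lt_iff₀ hc] at hm
      have h3 := h m
      rw [← h0, zero_mul, T_zero, R640.len_one, zero_add] at h3
      have h4 := h2 m
      have h5 : (len Y (g ^ m) : ℝ) ≤ C := by exact_mod_cast h3
      linarith [mul_comm (m : ℝ) c]
  refine ⟨hpos, ?_⟩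
  obtain ⟨k, hk⟩ := Int.eq_ofNat_of_zero_le hg
  have hk1 : 1 ≤ k := by omega
  have hkR : (0 : ℝ) < k := by exact_mod_cast hk1
  refine ⟨c / k, c + C + k * len Y (T 1), by positivity, fun n => ?_⟩
  have h3 := h (n / k)
  have h4 := h2 (n / k)
  rw [hk] at h3
  have e1 : T ((k : ℤ) * (n / k : ℕ)) = T 1 ^ n * (T 1 ^ (n % k))⁻¹ := by
    rw [← T_neg_nat, ← T_nat, T_add]
    congr 1
    have := Nat.div_add_mod n k
    have h5 : (k : ℤ) * ((n / k : ℕ) : ℤ) + ((n % k : ℕ) : ℤ) = n := by exact_mod_cast this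
    omega
  have a1 := R640.len_mul_le hY (T 1 ^ n) (T 1 ^ (n % k))⁻¹
  rw [← e1, R640.len_inv hY] at a1
  have a2 := R640.len_pow_le hY (T 1) (n % k)
  have a3 : n % k * len Y (T 1) ≤ k * len Y (T 1) :=
    Nat.mul_le_mul_right _ (Nat.mod_lt _ hk1).le
  have a4 : len Y (g ^ (n / k)) ≤ len Y (T 1 ^ n) + k * len Y (T 1) + C := by
    have : (Int.ofNat k : ℤ) = (k : ℤ) := rfl
    omega
  have a5 : (len Y (g ^ (n / k)) : ℝ) ≤ len Y (T 1 ^ n) + k * len Y (T 1) + C := by exact_mod_cast a4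
  have a6 : (n : ℝ) / k - 1 ≤ (n / k : ℕ) := by
    have h6 : n < k * (n / k) + k := by
      have := Nat.div_add_mod n k
      have := Nat.mod_lt n hk1
      omega
    have h7 : (n : ℝ) < k * (n / k : ℕ) + k := by exact_mod_cast h6
    have h8 : (n : ℝ) / k < (n / k : ℕ) + 1 := by
      rw [div_lt_iff₀ hkR]
      linarith [mul_comm (k : ℝ) ((n / k : ℕ) : ℝ), add_mul ((n / k : ℕ) : ℝ) 1 (k : ℝ)]
    linarith
  have a7 : c * ((n : ℝ) / k - 1) ≤ c * (n / k : ℕ) := mul_le_mul_of_nonneg_left a6 hc.le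
  have a8 : c / k * n = c * ((n : ℝ) / k) := by ring
  rw [a8]
  linarith

/-- the double cosets of the stabilizer -/
theorem double (x : G) : ∃ i j : ℕ, (i : ℤ) + j = DD x ∧ (i : ℤ) - j = kk x ∧
    ∃ a ∈ A0, ∃ y ∈ A0, ((i = 0 ∨ j = 0) ∧ x = a * (T 1 ^ i * (T 1 ^ j)⁻¹) * y) ∨
      x = a * (T 1 ^ i * (ss * (T 1 ^ j)⁻¹)) * y := by
  obtain ⟨i, j, y, hy, h1, h2, h⟩ := decomp' x
  refine ⟨i, j, h1, h2, ?_⟩
  by_cases hi : i = 0
  · subst hi
    refine ⟨y, hy, 1, A0.one_mem, Or.inl ⟨Or.inl rfl, ?_⟩⟩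
    rw [h]
    group
  by_cases hj : j = 0
  · subst hj
    refine ⟨1, A0.one_mem, y, hy, Or.inl ⟨Or.inr rfl, ?_⟩⟩
    rw [h]
    group
  have hmu : mu x = i := by
    unfold DD at h1
    omega
  have hnu : nu (act x 0) = i := by
    unfold mu at hmu
    omega
  have hp : nu (act (T 1 ^ i * (ss * (T 1 ^ j)⁻¹)) 0) = i := by
    rw [act_mul, act_mul, ← T_neg_nat, act_T_zero, ← T_nat]
    apply nu_eq _ _ (Nat.one_le_iff_ne_zero.2 hi)
    · intro n hn
      rw [act_T]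
      change (if n - (i : ℤ) = 0 then (1 : ℤ) else 0) + 0 = 0
      rw [if_neg (by omega), add_zero]
    · rw [act_T]
      change (if (i : ℤ) - (i : ℤ) = 0 then (1 : ℤ) else 0) + 0 ≠ 0
      rw [if_pos (by omega), add_zero]
      exact one_ne_zero
  obtain ⟨a, ha, ha2⟩ := trans_A0 (hp.trans hnu.symm)
  refine ⟨a, ha, (a * (T 1 ^ i * (ss * (T 1 ^ j)⁻¹)))⁻¹ * x, mem_A0_of_fix ?_ ?_, Or.inr ?_⟩
  · rw [kk_mul, kk_inv, kk_mul, kk_mul, kk_mul, kk_inv, kk_pow, kk_pow, kk_T, ha.1, ss_mem.1, ← h2]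
    ring
  · rw [act_mul, ← ha2, ← act_mul a, act_inv_act]
  · group

theorem uni_left {Y : Set G} (hQ : IsQP Y) : ∃ C : ℕ, ∀ y ∈ Y, len XX y ≤ C := by
  have hY := hQ.gen
  obtain ⟨C₀, hC⟩ := bdd_A0 (lf_len hY)
  obtain ⟨δ, hδ⟩ := hQ.hyp
  have hδ0 : 0 ≤ δ := by
    have := hδ 1 1 1
    rw [min_self] at this
    linarith
  obtain ⟨g, h, hg, hh, hnon⟩ := hQ.non
  have hlox : ∀ g, Lox Y g → kk g ≠ 0 := by
    intro g hg h0
    have := (lox_kk hY hC h0.ge hg).1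
    omega
  have hlin : ∃ c C : ℝ, 0 < c ∧ ∀ n : ℕ, c * n - C ≤ len Y (T 1 ^ n) := by
    by_cases hk : 0 ≤ kk g
    · exact (lox_kk hY hC hk hg).2
    · exact (lox_kk hY hC (by rw [kk_inv]; omega) (lox_inv hY hg)).2
  obtain ⟨c, C, hc, hlin⟩ := hlin
  obtain ⟨C₂, hC₂, hadd⟩ := almost_add hY hδ (T 1) hc hlin
  set a : ℕ → ℝ := fun n => (len Y (T 1 ^ n) : ℝ) with ha
  have ann : ∀ n, 0 ≤ a n := fun n => Nat.cast_nonneg _
  have hlin' : ∀ n : ℕ, c * n - C ≤ a n := hlin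
  have hadd' : ∀ p q : ℕ, a p + a q ≤ a (p + q) + 2 * C₂ := hadd
  have ha1 : ∀ n : ℕ, a n ≤ n * a 1 := by
    intro n
    have := R640.len_pow_le hY (T 1) n
    rw [ha]
    simp only []
    rw [pow_one]
    exact_mod_cast this
  have hCR : ∀ y ∈ A0, (len Y y : ℝ) ≤ C₀ := fun y hy => by exact_mod_cast hC y hy
  have hinv : ∀ n, (len Y (T 1 ^ n)⁻¹ : ℝ) = a n := fun n => by rw [R640.len_inv hY]
  -- lengths of products with elements of the stabilizer
  have hcos : ∀ (u v x : G), u ∈ A0 → v ∈ A0 → (len Y x : ℝ) - 2 * C₀ ≤ len Y (u * x * v) ∧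
      (len Y (u * x * v) : ℝ) ≤ len Y x + 2 * C₀ := by
    intro u v x hu hv
    have b1 := R640.len_mul_le hY (u * x) v
    have b2 := R640.len_mul_le hY u x
    have b3 := hC u hu
    have b4 := hC v hv
    have b5 := R640.len_mul_le hY (u⁻¹ * (u * x * v)) v⁻¹
    have b6 := R640.len_mul_le hY u⁻¹ (u * x * v)
    rw [show u⁻¹ * (u * x * v) * v⁻¹ = x by group, R640.len_inv hY] at b5
    rw [R640.len_inv hY] at b6
    have b7 : len Y x ≤ len Y (u * x * v) + 2 * C₀ := by omega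
    have b8 : len Y (u * x * v) ≤ len Y x + 2 * C₀ := by omega
    have b9 : (len Y x : ℝ) ≤ len Y (u * x * v) + 2 * C₀ := by exact_mod_cast b7
    have b10 : (len Y (u * x * v) : ℝ) ≤ len Y x + 2 * C₀ := by exact_mod_cast b8
    exact ⟨by linarith, b10⟩
  have hsj : ∀ j : ℕ, a j - C₀ ≤ len Y (ss * (T 1 ^ j)⁻¹) ∧ (len Y (ss * (T 1 ^ j)⁻¹) : ℝ) ≤ a j + C₀ := by
    intro j
    have b1 := R640.len_mul_le hY ss (T 1 ^ j)⁻¹
    have b2 := R640.len_mul_le hY ss⁻¹ (ss * (T 1 ^ j)⁻¹)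
    have b3 := hC ss ss_mem
    have b4 := R640.len_inv hY ss
    rw [inv_mul_cancel_left, R640.len_inv hY] at b2
    rw [R640.len_inv hY (T 1 ^ j)] at b1
    have b5 : len Y (T 1 ^ j) ≤ C₀ + len Y (ss * (T 1 ^ j)⁻¹) := by omega
    have b6 : len Y (ss * (T 1 ^ j)⁻¹) ≤ C₀ + len Y (T 1 ^ j) := by omega
    have b7 : a j ≤ C₀ + len Y (ss * (T 1 ^ j)⁻¹) := by
      rw [ha]; simp only []; exact_mod_cast b5
    have b8 : (len Y (ss * (T 1 ^ j)⁻¹) : ℝ) ≤ C₀ + a j := by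
      rw [ha]; simp only []; exact_mod_cast b6
    exact ⟨by linarith, by linarith⟩
  have hgpij : ∀ i j : ℕ, gp Y (T 1 ^ i)⁻¹ (ss * (T 1 ^ j)⁻¹) =
      (a i + len Y (ss * (T 1 ^ j)⁻¹) - len Y (T 1 ^ i * (ss * (T 1 ^ j)⁻¹))) / 2 := by
    intro i j
    unfold gp
    rw [inv_inv, hinv]
  by_cases hb : ∃ K : ℝ, ∀ i j : ℕ, gp Y (T 1 ^ i)⁻¹ (ss * (T 1 ^ j)⁻¹) ≤ K
  · -- the length is at least a multiple of the displacement
    obtain ⟨K, hK⟩ := hb
    have hlow : ∀ x : G, c * DD x ≤ len Y x + (2 * C + 3 * C₀ + 2 * |K| + 2 * C₂) := by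
      intro x
      obtain ⟨i, j, h1, -, u, hu, v, hv, h3⟩ := double x
      have h4 : c * (DD x : ℝ) = c * i + c * j := by
        rw [← h1]; push_cast; ring
      rw [h4]
      have h5 := hlin' i
      have h6 := hlin' j
      have hK0 : 0 ≤ |K| := abs_nonneg K
      have hC0 : (0 : ℝ) ≤ C₀ := Nat.cast_nonneg _
      rcases h3 with ⟨h3, h7⟩ | h7
      · have h8 := (hcos u v (T 1 ^ i * (T 1 ^ j)⁻¹) hu hv).1
        rw [← h7] at h8
        have h9 : a i + a j ≤ len Y (T 1 ^ i * (T 1 ^ j)⁻¹) := by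
          have a0 : a 0 = 0 := by rw [ha]; simp only []; rw [pow_zero, R640.len_one]; simp
          rcases h3 with h3 | h3
          · rw [h3, pow_zero, one_mul, hinv, a0, zero_add]
          · rw [h3, pow_zero, inv_one, mul_one, a0, add_zero]
        linarith
      · have h8 := (hcos u v (T 1 ^ i * (ss * (T 1 ^ j)⁻¹)) hu hv).1
        rw [← h7] at h8
        have h9 := hK i j
        rw [hgpij] at h9
        have h10 := (hsj j).1
        have h11 := le_abs_self K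
        linarith
    set E := 2 * C + 3 * C₀ + 2 * |K| + 2 * C₂ with hE
    refine ⟨⌈(1 + E) / c⌉₊ + 1, fun y hy => ?_⟩
    have h1 := hlow y
    have h2 := R640.len_le_one hy
    have h3 : (len Y y : ℝ) ≤ 1 := by exact_mod_cast h2
    have h4 : (DD y : ℝ) ≤ (1 + E) / c := by
      rw [le_div_iff₀ hc]
      linarith [mul_comm (DD y : ℝ) c]
    have h5 := Nat.le_ceil ((1 + E) / c)
    have h6 : (DD y : ℝ) ≤ ((⌈(1 + E) / c⌉₊ : ℤ) : ℝ) := by
      have : ((⌈(1 + E) / c⌉₊ : ℤ) : ℝ) = (⌈(1 + E) / c⌉₊ : ℝ) := by norm_cast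
      rw [this]
      linarith
    have h7 : DD y ≤ (⌈(1 + E) / c⌉₊ : ℤ) := by exact_mod_cast h6
    have h8 := len_le_DD y
    omega
  · -- the kernel is bounded: the action is lineal
    exfalso
    push Not at hb
    have hC0 : (0 : ℝ) ≤ C₀ := Nat.cast_nonneg _
    have hker0 : ∀ i : ℕ, (len Y (T 1 ^ i * (ss * (T 1 ^ i)⁻¹)) : ℝ) ≤ 3 * C₀ + 2 * C₂ + 4 * δ := by
      intro i
      obtain ⟨i', j', hij⟩ := hb (C₀ + i * a 1)
      have h1 : i ≤ i' := by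
        by_contra hcon
        push Not at hcon
        have h2 := gp_le_left hY (T 1 ^ i')⁻¹ (ss * (T 1 ^ j')⁻¹)
        rw [hinv] at h2
        have h3 := ha1 i'
        have h4 : (i' : ℝ) * a 1 ≤ i * a 1 :=
          mul_le_mul_of_nonneg_right (by exact_mod_cast hcon.le) (ann 1)
        linarith
      have h2 : i ≤ j' := by
        by_contra hcon
        push Not at hcon
        have h2 := gp_le_right hY (T 1 ^ i')⁻¹ (ss * (T 1 ^ j')⁻¹)
        have h3 := ha1 j'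
        have h4 : (j' : ℝ) * a 1 ≤ i * a 1 :=
          mul_le_mul_of_nonneg_right (by exact_mod_cast hcon.le) (ann 1)
        have h5 := (hsj j').2
        linarith
      obtain ⟨p, rfl⟩ := Nat.exists_eq_add_of_le h1
      obtain ⟨q, rfl⟩ := Nat.exists_eq_add_of_le h2
      have g1 : a i - C₂ ≤ gp Y (T 1 ^ i)⁻¹ (T 1 ^ (i + p))⁻¹ := by
        unfold gp
        have e : ((T 1 ^ i)⁻¹)⁻¹ * (T 1 ^ (i + p))⁻¹ = (T 1 ^ p)⁻¹ := by
          rw [pow_add, pow_mul_comm]; group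
        rw [e, hinv, hinv, hinv]
        have := hadd' i p
        linarith
      have g3 : a i - C₂ - C₀ ≤ gp Y (ss * (T 1 ^ (i + q))⁻¹) (ss * (T 1 ^ i)⁻¹) := by
        unfold gp
        have e : (ss * (T 1 ^ (i + q))⁻¹)⁻¹ * (ss * (T 1 ^ i)⁻¹) = T 1 ^ q := by
          rw [pow_add, pow_mul_comm]; group
        rw [e]
        have h3 := hadd' i q
        have h4 := (hsj (i + q)).1
        have h5 := (hsj i).1
        have h6 : (len Y (T 1 ^ q) : ℝ) = a q := rfl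
        rw [h6]
        linarith
      have b1 := hδ (T 1 ^ i)⁻¹ (T 1 ^ (i + p))⁻¹ (ss * (T 1 ^ (i + q))⁻¹)
      have b2 := hδ (T 1 ^ i)⁻¹ (ss * (T 1 ^ (i + q))⁻¹) (ss * (T 1 ^ i)⁻¹)
      have b3 := ha1 i
      have b4 : a i - C₂ - δ ≤ gp Y (T 1 ^ i)⁻¹ (ss * (T 1 ^ (i + q))⁻¹) := by
        have : a i - C₂ ≤ min (gp Y (T 1 ^ i)⁻¹ (T 1 ^ (i + p))⁻¹)
            (gp Y (T 1 ^ (i + p))⁻¹ (ss * (T 1 ^ (i + q))⁻¹)) := le_min g1 (by linarith)
        linarith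
      have b5 : a i - C₂ - C₀ - 2 * δ ≤ gp Y (T 1 ^ i)⁻¹ (ss * (T 1 ^ i)⁻¹) := by
        have : a i - C₂ - C₀ - δ ≤ min (gp Y (T 1 ^ i)⁻¹ (ss * (T 1 ^ (i + q))⁻¹))
            (gp Y (ss * (T 1 ^ (i + q))⁻¹) (ss * (T 1 ^ i)⁻¹)) := le_min (by linarith) (by linarith)
        linarith
      rw [hgpij] at b5
      have b6 := (hsj i).2
      linarith
    set E := 5 * C₀ + 2 * C₂ + 4 * δ with hE
    have hE0 : 0 ≤ E := by positivity
    have hker : ∀ x : G, kk x = 0 → (len Y x : ℝ) ≤ E := by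
      intro x hx
      obtain ⟨i, j, h1, h2, u, hu, v, hv, h3⟩ := double x
      have hij : i = j := by omega
      subst hij
      rcases h3 with ⟨h3, h7⟩ | h7
      · have h8 := (hcos u v (T 1 ^ i * (T 1 ^ i)⁻¹) hu hv).2
        rw [← h7, mul_inv_cancel, R640.len_one, Nat.cast_zero] at h8
        linarith
      · have h8 := (hcos u v (T 1 ^ i * (ss * (T 1 ^ i)⁻¹)) hu hv).2
        rw [← h7] at h8
        have := hker0 i
        linarith
    -- the products of the powers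
    have hsame : ∀ m n : ℕ, min (a m) (a n) - C₂ ≤ gp Y (T 1 ^ m) (T 1 ^ n) ∧
        min (a m) (a n) - C₂ ≤ gp Y (T 1 ^ m)⁻¹ (T 1 ^ n)⁻¹ := by
      have key : ∀ m n : ℕ, m ≤ n → (a m - C₂ ≤ gp Y (T 1 ^ m) (T 1 ^ n) ∧
        a m - C₂ ≤ gp Y (T 1 ^ n) (T 1 ^ m)) ∧ (a m - C₂ ≤ gp Y (T 1 ^ m)⁻¹ (T 1 ^ n)⁻¹ ∧
        a m - C₂ ≤ gp Y (T 1 ^ n)⁻¹ (T 1 ^ m)⁻¹) := by
        intro m n hmn
        obtain ⟨p, rfl⟩ := Nat.exists_eq_add_of_le hmn
        have h3 := hadd' m p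
        have e0 : ∀ n, (len Y (T 1 ^ n) : ℝ) = a n := fun n => rfl
        refine ⟨⟨?_, ?_⟩, ?_, ?_⟩
        · unfold gp
          rw [show (T 1 ^ m)⁻¹ * T 1 ^ (m + p) = T 1 ^ p by rw [pow_add]; group, e0, e0, e0]
          linarith
        · unfold gp
          rw [show (T 1 ^ (m + p))⁻¹ * T 1 ^ m = (T 1 ^ p)⁻¹ by rw [pow_add]; group, e0, e0, hinv]
          linarith
        · unfold gp
          rw [show ((T 1 ^ m)⁻¹)⁻¹ * (T 1 ^ (m + p))⁻¹ = (T 1 ^ p)⁻¹ by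
            rw [pow_add, pow_mul_comm]; group, hinv, hinv, hinv]
          linarith
        · unfold gp
          rw [show ((T 1 ^ (m + p))⁻¹)⁻¹ * (T 1 ^ m)⁻¹ = T 1 ^ p by
            rw [pow_add, pow_mul_comm]; group, hinv, hinv, e0]
          linarith
      intro m n
      rcases le_total m n with hmn | hmn
      · have h1 := key m n hmn
        have h2 := min_le_left (a m) (a n)
        exact ⟨by linarith [h1.1.1], by linarith [h1.2.1]⟩
      · have h1 := key n m hmn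
        have h2 := min_le_right (a m) (a n)
        exact ⟨by linarith [h1.1.2], by linarith [h1.2.2]⟩
    -- two elements with exponents of the same sign have the same limit point
    have hSE : ∀ g h : G, (0 < kk g ∧ 0 < kk h) ∨ (kk g < 0 ∧ kk h < 0) → SE Y g h := by
      intro g h hgh K
      refine ⟨⌈(K + C + C₂ + 2 * E) / c⌉₊, fun n m hn hm => ?_⟩
      have hbig : ∀ n k : ℕ, ⌈(K + C + C₂ + 2 * E) / c⌉₊ ≤ n → 1 ≤ k → K + C₂ + 2 * E ≤ a (k * n) := by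
        intro n k hn hk
        have h1 := hlin' (k * n)
        have h2 : (K + C + C₂ + 2 * E) / c ≤ n := Nat.ceil_le.1 hn
        rw [div_le_iff₀ hc] at h2
        have h3 : (n : ℝ) ≤ ((k * n : ℕ) : ℝ) := by exact_mod_cast Nat.le_mul_of_pos_left n hk
        have h4 := mul_le_mul_of_nonneg_left h3 hc.le
        linarith [mul_comm (n : ℝ) c]
      rcases hgh with ⟨hg1, hh1⟩ | ⟨hg1, hh1⟩
      · obtain ⟨k, hk⟩ := Int.eq_ofNat_of_zero_le hg1.le
        obtain ⟨l, hl⟩ := Int.eq_ofNat_of_zero_le hh1.le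
        have hk1 : 1 ≤ k := by omega
        have hl1 : 1 ≤ l := by omega
        have e1 : g ^ n = T 1 ^ (k * n) * ((T 1 ^ (k * n))⁻¹ * g ^ n) := by group
        have e2 : h ^ m = T 1 ^ (l * m) * ((T 1 ^ (l * m))⁻¹ * h ^ m) := by group
        have f1 := hker ((T 1 ^ (k * n))⁻¹ * g ^ n) (by
          rw [kk_mul, kk_inv, kk_pow, kk_pow, kk_T, hk]; push_cast; ring)
        have f2 := hker ((T 1 ^ (l * m))⁻¹ * h ^ m) (by
          rw [kk_mul, kk_inv, kk_pow, kk_pow, kk_T, hl]; push_cast; ring)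
        have f3 := gp_pert' hY (T 1 ^ (k * n)) (T 1 ^ (l * m)) ((T 1 ^ (k * n))⁻¹ * g ^ n)
          ((T 1 ^ (l * m))⁻¹ * h ^ m)
        rw [← e1, ← e2] at f3
        have f4 := (hsame (k * n) (l * m)).1
        have f5 := le_min (hbig n k hn hk1) (hbig m l hm hl1)
        linarith
      · obtain ⟨k, hk⟩ := Int.eq_ofNat_of_zero_le (show 0 ≤ -kk g by omega)
        obtain ⟨l, hl⟩ := Int.eq_ofNat_of_zero_le (show 0 ≤ -kk h by omega)
        have hk1 : 1 ≤ k := by omega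
        have hl1 : 1 ≤ l := by omega
        have hk' : kk g = -(k : ℤ) := by omega
        have hl' : kk h = -(l : ℤ) := by omega
        have e1 : g ^ n = (T 1 ^ (k * n))⁻¹ * (T 1 ^ (k * n) * g ^ n) := by group
        have e2 : h ^ m = (T 1 ^ (l * m))⁻¹ * (T 1 ^ (l * m) * h ^ m) := by group
        have f1 := hker (T 1 ^ (k * n) * g ^ n) (by
          rw [kk_mul, kk_pow, kk_pow, kk_T, hk']; push_cast; ring)
        have f2 := hker (T 1 ^ (l * m) * h ^ m) (by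
          rw [kk_mul, kk_pow, kk_pow, kk_T, hl']; push_cast; ring)
        have f3 := gp_pert' hY (T 1 ^ (k * n))⁻¹ (T 1 ^ (l * m))⁻¹ (T 1 ^ (k * n) * g ^ n)
          (T 1 ^ (l * m) * h ^ m)
        rw [← e1, ← e2] at f3
        have f4 := (hsame (k * n) (l * m)).2
        have f5 := le_min (hbig n k hn hk1) (hbig m l hm hl1)
        linarith
    apply hnon
    have h1 := hlox g hg
    have h2 := hlox h hh
    rcases lt_or_gt_of_ne h1 with h1 | h1 <;> rcases lt_or_gt_of_ne h2 with h2 | h2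
    · exact Or.inl ⟨hSE _ _ (Or.inr ⟨h1, h2⟩),
        hSE _ _ (Or.inl ⟨by rw [kk_inv]; omega, by rw [kk_inv]; omega⟩)⟩
    · exact Or.inr ⟨hSE _ _ (Or.inr ⟨h1, by rw [kk_inv]; omega⟩),
        hSE _ _ (Or.inl ⟨by rw [kk_inv]; omega, h2⟩)⟩
    · exact Or.inr ⟨hSE _ _ (Or.inl ⟨h1, by rw [kk_inv]; omega⟩),
        hSE _ _ (Or.inr ⟨by rw [kk_inv]; omega, h2⟩)⟩
    · exact Or.inl ⟨hSE _ _ (Or.inl ⟨h1, h2⟩),
        hSE _ _ (Or.inr ⟨by rw [kk_inv]; omega, by rw [kk_inv]; omega⟩)⟩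

theorem uni_right {Y : Set G} (hY : Subgroup.closure Y = ⊤) : ∃ C : ℕ, ∀ x ∈ XX, len Y x ≤ C := by
  obtain ⟨C₀, hC⟩ := bdd_A0 (lf_len hY)
  refine ⟨len Y (T 1) + C₀, fun x hx => ?_⟩
  obtain ⟨i, j, y, hy, h1, -, h⟩ := decomp' x
  have h2 := len_decomp hY hC (i := i) (j := j) hy
  rw [← h] at h2
  have h3 : DD x ≤ 1 := hx
  have h4 : (i + j) * len Y (T 1) ≤ 1 * len Y (T 1) := Nat.mul_le_mul_right _ (by omega)
  omega

end Pool.Agent.U820.QP1
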