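import Pool.Agent.U820.QP1.Patch
import Pool.Agent.R640.Len

set_option autoImplicit false

/-! The quasi-parabolic generating set. -/

namespace Pool.Agent.U820.QP1

open Pointwise
open Pool.Agent.R640 (len gp)

/-- loxodromic -/
def Lox {H : Type} [Group H] (S : Set H) (g : H) : Prop :=
  ∃ c : ℝ, 0 < c ∧ ∀ n : ℕ, c * (n : ℝ) ≤ (len S (g ^ n) : ℝ)

/-- the same limit point -/
def SE {H : Type} [Group H] (S : Set H) (a b : H) : Prop :=
  ∀ K : ℝ, ∃ N : ℕ, ∀ n m : ℕ, N ≤ n → N ≤ m → K ≤ gp S (a ^ n) (b ^ m)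

/-- quasi-parabolic -/
structure IsQP {H : Type} [Group H] (S : Set H) : Prop where
  gen : Subgroup.closure S = ⊤
  hyp : ∃ δ : ℝ, ∀ x y z : H, min (gp S x y) (gp S y z) - δ ≤ gp S x z
  non : ∃ g h : H, Lox S g ∧ Lox S h ∧ ¬ ((SE S g h ∧ SE S g⁻¹ h⁻¹) ∨ (SE S g h⁻¹ ∧ SE S g⁻¹ h))
  fix : ∀ g h : H, Lox S g → Lox S h → (SE S g h ∨ SE S g h⁻¹ ∨ SE S g⁻¹ h ∨ SE S g⁻¹ h⁻¹)

/-- the height of the confluence of `1` and `x` -/
noncomputable def mu (x : G) : ℕ := max (kk x).toNat (nu (act x 0))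

theorem mu_le {x : G} {n : ℤ} : (mu x : ℤ) ≤ n ↔ 0 ≤ n ∧ kk x ≤ n ∧ R n (act x 0) 0 := by
  unfold mu
  rw [Nat.cast_max, max_le_iff, nu_le]
  constructor
  · rintro ⟨h1, h2, h3⟩
    exact ⟨h2, by omega, h3⟩
  · rintro ⟨h1, h2, h3⟩
    exact ⟨by omega, h1, h3⟩

/-- the height of the confluence -/
noncomputable def MM (g h : G) : ℤ := kk g + mu (g⁻¹ * h)

theorem MM_le {g h : G} {n : ℤ} : MM g h ≤ n ↔ kk g ≤ n ∧ kk h ≤ n ∧ R n (act g 0) (act h 0) := by
  have h1 := mu_le (x := g⁻¹ * h) (n := n - kk g)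
  have h2 := R_act g (n := n - kk g) (f := act g⁻¹ (act h 0)) (g := 0)
  rw [act_act_inv, sub_add_cancel] at h2
  rw [kk_mul, kk_inv, act_mul, h2] at h1
  unfold MM
  constructor
  · intro h
    obtain ⟨a, b, c⟩ := h1.1 (by omega)
    exact ⟨by omega, by omega, c.symm⟩
  · rintro ⟨a, b, c⟩
    have := h1.2 ⟨by omega, by omega, c.symm⟩
    omega

theorem MM_comm (g h : G) : MM g h = MM h g := by
  have h1 : ∀ n, MM g h ≤ n ↔ MM h g ≤ n := by
    intro n
    rw [MM_le, MM_le]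
    constructor
    · rintro ⟨a, b, c⟩; exact ⟨b, a, c.symm⟩
    · rintro ⟨a, b, c⟩; exact ⟨b, a, c.symm⟩
  exact le_antisymm ((h1 _).2 le_rfl) ((h1 _).1 le_rfl)

theorem MM_ultra (g h k : G) : MM g k ≤ max (MM g h) (MM h k) := by
  rw [MM_le]
  obtain ⟨a, b, c⟩ := MM_le.1 (le_max_left (MM g h) (MM h k))
  obtain ⟨a', b', c'⟩ := MM_le.1 (le_max_right (MM g h) (MM h k))
  exact ⟨a, b', c.trans c'⟩

theorem MM_one (x : G) : MM 1 x = mu x := by
  unfold MM
  rw [inv_one, one_mul, kk_one, zero_add]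

theorem MM_self_mul (g x : G) : MM g (g * x) = kk g + mu x := by
  unfold MM
  rw [inv_mul_cancel_left]

theorem kk_le_MM (g h : G) : kk g ≤ MM g h := (MM_le.1 le_rfl).1

theorem kk_le_MM' (g h : G) : kk h ≤ MM g h := (MM_le.1 le_rfl).2.1

theorem kk_le_mu (x : G) : kk x ≤ mu x := by
  rw [← MM_one]; exact kk_le_MM' _ _

/-- the displacement -/
noncomputable def DD (x : G) : ℤ := 2 * mu x - kk x

theorem DD_inv_mul (x y : G) : DD (x⁻¹ * y) = 2 * MM x y - kk x - kk y := by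
  unfold DD MM
  rw [kk_mul, kk_inv]
  ring

theorem DD_mul_le (g x : G) : DD (g * x) ≤ DD g + DD x := by
  have h1 := MM_ultra 1 g (g * x)
  rw [MM_one, MM_one, MM_self_mul] at h1
  have h2 := kk_le_mu g
  have h3 := kk_le_mu x
  unfold DD
  rw [kk_mul]
  omega

theorem DD_inv (x : G) : DD x⁻¹ = DD x := by
  have h1 := DD_inv_mul x 1
  rw [mul_one, MM_comm, MM_one, kk_one] at h1
  rw [h1]
  unfold DD
  ring

theorem DD_nonneg (x : G) : 0 ≤ DD x := by
  have := kk_le_mu x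
  unfold DD
  omega

/-- the generating set -/
def XX : Set G := {x | DD x ≤ 1}

theorem decomp (x : G) : ∃ y ∈ A0, x = T (mu x) * y * T (-(mu x - kk x)) := by
  refine ⟨T (-(mu x)) * x * T (mu x - kk x), ⟨?_, ?_⟩, ?_⟩
  · rw [kk_mul, kk_mul, kk_T, kk_T]; ring
  · rw [act_mul, act_mul, act_T_zero]
    have h1 := (mu_le.1 (le_refl (mu x : ℤ))).2.2
    have h2 := (R_act (T (-(mu x : ℤ)))).1 h1
    rw [kk_T, act_T_zero, add_neg_cancel] at h2
    have h3 : (nu (act (T (-(mu x : ℤ))) (act x 0)) : ℤ) ≤ 0 := nu_le.2 ⟨le_rfl, h2⟩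
    omega
  · have h1 : T (mu x) * T (-(mu x)) = 1 := by rw [T_add, add_neg_cancel, T_zero]
    have h2 : T (mu x - kk x) * T (-(mu x - kk x)) = 1 := by rw [T_add, add_neg_cancel, T_zero]
    calc x = (T (mu x) * T (-(mu x))) * x * (T (mu x - kk x) * T (-(mu x - kk x))) := by
          rw [h1, h2, one_mul, mul_one]
      _ = _ := by simp only [mul_assoc]

theorem mu_A0 {y : G} (hy : y ∈ A0) : mu y = 0 := by
  unfold mu
  rw [hy.1, hy.2]
  rfl

theorem A0_sub : ∀ y ∈ A0, y ∈ XX := by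
  intro y hy
  change DD y ≤ 1
  unfold DD
  rw [mu_A0 hy, hy.1]
  norm_num

theorem mu_T (n : ℤ) : mu (T n) = n.toNat := by
  unfold mu
  rw [kk_T, act_T_zero, nu_zero]
  simp

theorem T_one_mem : T 1 ∈ XX := by
  change DD (T 1) ≤ 1
  unfold DD
  rw [mu_T, kk_T]
  norm_num

theorem T_nat (n : ℕ) : T (n : ℤ) = T 1 ^ n := by rw [T_pow, mul_one]

theorem T_neg_nat (n : ℕ) : T (-(n : ℤ)) = (T 1 ^ n)⁻¹ := by rw [← T_nat, T_inv]

theorem decomp' (x : G) : ∃ i j : ℕ, ∃ y ∈ A0, (i : ℤ) + j = DD x ∧ (i : ℤ) - j = kk x ∧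
    x = T 1 ^ i * y * (T 1 ^ j)⁻¹ := by
  obtain ⟨y, hy, h⟩ := decomp x
  have h1 := kk_le_mu x
  obtain ⟨j, hj⟩ := Int.eq_ofNat_of_zero_le (show 0 ≤ (mu x : ℤ) - kk x by omega)
  refine ⟨mu x, j, y, hy, ?_, by omega, ?_⟩
  · unfold DD; omega
  · rw [hj, T_neg_nat, T_nat] at h
    exact h

theorem gen_XX : Subgroup.closure XX = ⊤ := by
  rw [Subgroup.eq_top_iff']
  intro x
  obtain ⟨i, j, y, hy, -, -, h⟩ := decomp' x
  rw [h]
  have hT : T 1 ∈ Subgroup.closure XX := Subgroup.subset_closure T_one_mem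
  exact (Subgroup.closure XX).mul_mem ((Subgroup.closure XX).mul_mem
    ((Subgroup.closure XX).pow_mem hT _) (Subgroup.subset_closure (A0_sub y hy)))
    ((Subgroup.closure XX).inv_mem ((Subgroup.closure XX).pow_mem hT _))

theorem DD_le_len (x : G) : DD x ≤ len XX x := by
  apply R640.le_len_of_lip gen_XX DD
  · unfold DD
    rw [mu_A0 A0.one_mem, kk_one]
    norm_num
  · intro g x hx
    have h1 : DD x ≤ 1 := by
      rcases hx with h | h
      · exact h
      · have h2 : DD x⁻¹ ≤ 1 := h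
        rwa [DD_inv] at h2
    have := DD_mul_le g x
    omega

/-- the word length in terms of the decomposition -/
theorem len_decomp {Y : Set G} (hY : Subgroup.closure Y = ⊤) {C : ℕ} (hC : ∀ y ∈ A0, len Y y ≤ C)
    {i j : ℕ} {y : G} (hy : y ∈ A0) :
    len Y (T 1 ^ i * y * (T 1 ^ j)⁻¹) ≤ (i + j) * len Y (T 1) + C := by
  have h1 := R640.len_mul_le hY (T 1 ^ i * y) (T 1 ^ j)⁻¹
  have h2 := R640.len_mul_le hY (T 1 ^ i) y
  have h3 := R640.len_pow_le hY (T 1) i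
  have h4 := R640.len_pow_le hY (T 1) j
  have h5 := R640.len_inv hY (T 1 ^ j)
  have h6 := hC y hy
  rw [add_mul]
  omega

theorem len_le_DD (x : G) : (len XX x : ℤ) ≤ DD x + 1 := by
  obtain ⟨i, j, y, hy, h1, -, h⟩ := decomp' x
  have h2 := len_decomp gen_XX (fun y hy => R640.len_le_one (A0_sub y hy)) (i := i) (j := j) hy
  have h3 := R640.len_le_one T_one_mem
  rw [← h] at h2
  have h4 : (i + j) * len XX (T 1) ≤ (i + j) * 1 := Nat.mul_le_mul_left _ h3
  omega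

/-- the Gromov product -/
noncomputable def PR (x y : G) : ℤ := mu x + mu y - MM x y

theorem gp_le (x y : G) : gp XX x y ≤ PR x y + 1 := by
  have h1 : (len XX x : ℤ) ≤ DD x + 1 := len_le_DD x
  have h2 : (len XX y : ℤ) ≤ DD y + 1 := len_le_DD y
  have h3 := DD_le_len (x⁻¹ * y)
  rw [DD_inv_mul] at h3
  unfold DD at h1 h2
  have h4 : (len XX x : ℤ) + len XX y - len XX (x⁻¹ * y) ≤ 2 * (PR x y + 1) := by
    unfold PR
    omega
  have h5 : ((len XX x : ℝ) + len XX y - len XX (x⁻¹ * y)) ≤ 2 * ((PR x y : ℝ) + 1) := by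
    exact_mod_cast h4
  unfold gp
  linarith

theorem le_gp (x y : G) : PR x y - 1 ≤ gp XX x y := by
  have h1 := DD_le_len x
  have h2 := DD_le_len y
  have h3 := len_le_DD (x⁻¹ * y)
  rw [DD_inv_mul] at h3
  unfold DD at h1 h2
  have h4 : 2 * (PR x y - 1) ≤ (len XX x : ℤ) + len XX y - len XX (x⁻¹ * y) := by
    unfold PR
    omega
  have h5 : 2 * ((PR x y : ℝ) - 1) ≤ ((len XX x : ℝ) + len XX y - len XX (x⁻¹ * y)) := by
    exact_mod_cast h4
  unfold gp
  linarith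

theorem PR_hyp (x y z : G) : min (PR x y) (PR y z) ≤ PR x z := by
  have a1 := MM_ultra 1 x y
  have a2 := MM_ultra 1 y x
  have a3 := MM_ultra x 1 y
  have b1 := MM_ultra 1 z y
  have b2 := MM_ultra 1 y z
  have b3 := MM_ultra z 1 y
  have c1 := MM_ultra 1 x z
  have c2 := MM_ultra 1 z x
  have c3 := MM_ultra x 1 z
  have d1 := MM_ultra x y z
  have d2 := MM_ultra y x z
  have d3 := MM_ultra x z y
  have e1 := MM_comm x y
  have e2 := MM_comm y z
  have e3 := MM_comm x z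
  have f1 := MM_comm x 1
  have f2 := MM_comm y 1
  have f3 := MM_comm z 1
  rw [MM_one] at f1 f2 f3
  rw [MM_one, MM_one] at a1 a2 b1 b2 c1 c2
  rw [MM_one] at a3 b3 c3
  unfold PR
  omega

theorem PR_ge (x y : G) : min (kk x) (kk y) ≤ PR x y := by
  have h1 := MM_ultra x 1 y
  have f1 := MM_comm x 1
  rw [MM_one] at h1 f1
  have h2 := kk_le_mu x
  have h3 := kk_le_mu y
  unfold PR
  omega

theorem kk_pow (x : G) (n : ℕ) : kk (x ^ n) = n * kk x := by
  induction n with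
  | zero => simp [kk_one]
  | succ n ih => rw [pow_succ, kk_mul, ih]; push_cast; ring

theorem SE_of_pos {x y : G} (hx : 0 < kk x) (hy : 0 < kk y) : SE XX x y := by
  intro K
  refine ⟨⌈K + 1⌉₊, fun n m hn hm => ?_⟩
  have h1 := le_gp (x ^ n) (y ^ m)
  have h2 := PR_ge (x ^ n) (y ^ m)
  rw [kk_pow, kk_pow] at h2
  have h3 : (n : ℤ) ≤ n * kk x := le_mul_of_one_le_right (Int.natCast_nonneg _) (by omega)
  have h4 : (m : ℤ) ≤ m * kk y := le_mul_of_one_le_right (Int.natCast_nonneg _) (by omega)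
  have h5 : (⌈K + 1⌉₊ : ℤ) ≤ PR (x ^ n) (y ^ m) := by omega
  have h6 : ((⌈K + 1⌉₊ : ℤ) : ℝ) ≤ (PR (x ^ n) (y ^ m) : ℝ) := by exact_mod_cast h5
  have h7 := Nat.le_ceil (K + 1)
  have h8 : ((⌈K + 1⌉₊ : ℤ) : ℝ) = (⌈K + 1⌉₊ : ℝ) := by norm_cast
  rw [h8] at h6
  linarith

theorem mu_pow_le {x : G} (hx : kk x = 0) (n : ℕ) : mu (x ^ n) ≤ mu x := by
  induction n with
  | zero =>
    rw [pow_zero, mu_A0 A0.one_mem]
    exact Nat.zero_le _
  | succ n ih =>
    have h1 := MM_ultra 1 x (x * x ^ n)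
    rw [MM_self_mul, MM_one, MM_one, hx, zero_add, ← pow_succ'] at h1
    omega

theorem kk_ne_of_lox {x : G} (hx : Lox XX x) : kk x ≠ 0 := by
  intro h0
  obtain ⟨c, hc, h⟩ := hx
  obtain ⟨n, hn⟩ := exists_nat_gt ((2 * mu x + 1 : ℝ) / c)
  rw [div_lt_iff₀ hc] at hn
  have h1 := h n
  have h2 := len_le_DD (x ^ n)
  have h3 := mu_pow_le h0 n
  unfold DD at h2
  rw [kk_pow, h0, mul_zero] at h2
  have h4 : (len XX (x ^ n) : ℤ) ≤ 2 * mu x + 1 := by omega
  have h5 : (len XX (x ^ n) : ℝ) ≤ 2 * mu x + 1 := by exact_mod_cast h4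
  linarith [mul_comm (n : ℝ) c]

theorem lox_of_conj (s : G) : Lox XX (s * T 1 * s⁻¹) := by
  refine ⟨1, one_pos, fun n => ?_⟩
  have h1 := DD_le_len ((s * T 1 * s⁻¹) ^ n)
  have h2 := kk_le_mu ((s * T 1 * s⁻¹) ^ n)
  have h3 := kk_pow (s * T 1 * s⁻¹) n
  rw [kk_mul, kk_mul, kk_inv, kk_T] at h3
  unfold DD at h1
  have h4 : (n : ℤ) ≤ len XX ((s * T 1 * s⁻¹) ^ n) := by
    have : (n : ℤ) * (kk s + 1 + -kk s) = n := by ring
    rw [this] at h3
    omega
  rw [one_mul]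
  exact_mod_cast h4

/-- the translation by the function with value `1` at `0` -/
def ss : G := tr ⟨fun n => if n = 0 then 1 else 0, ⟨0, fun n hn => if_neg (by omega)⟩⟩

theorem ss_mem : ss ∈ A0 := by
  refine ⟨rfl, ?_⟩
  have : (nu (act ss 0) : ℤ) ≤ 0 := by
    rw [nu_le]
    refine ⟨le_rfl, fun j hj => ?_⟩
    change (if j = 0 then (1 : ℤ) else 0) + 0 = 0
    rw [if_neg (by omega), add_zero]
  omega

theorem conj_val {m : ℕ} (hm : 1 ≤ m) : (act (ss * (T 1 ^ m)⁻¹ * ss⁻¹) 0).1 0 = 1 := by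
  have h1 : ∀ f : Om, act ss f = act ss 0 + f := by
    intro f
    have : act ss 0 = _ + 0 := rfl
    rw [this, add_zero]
    rfl
  have h2 : act ss⁻¹ 0 = - act ss 0 := by
    have h3 := h1 (act ss⁻¹ 0)
    rw [act_act_inv] at h3
    exact (neg_eq_of_add_eq_zero_right h3.symm).symm
  rw [act_mul, act_mul, h2, h1, ← T_neg_nat]
  change (if (0 : ℤ) = 0 then (1 : ℤ) else 0) + 0 + (act (T (-(m : ℤ))) (-act ss 0)).1 0 = 1
  rw [act_T]
  change (if (0 : ℤ) = 0 then (1 : ℤ) else 0) + 0 +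
    -((if (0 - -(m : ℤ) : ℤ) = 0 then (1 : ℤ) else 0) + 0) = 1
  rw [if_pos rfl, if_neg (by omega)]
  norm_num

theorem isQP_XX : IsQP XX where
  gen := gen_XX
  hyp := by
    refine ⟨2, fun x y z => ?_⟩
    have h1 := gp_le x y
    have h2 := gp_le y z
    have h3 := le_gp x z
    have h4 := PR_hyp x y z
    have h5 : min (PR x y : ℝ) (PR y z : ℝ) ≤ PR x z := by exact_mod_cast h4
    rcases min_le_iff.1 h5 with h6 | h6
    · have := min_le_left (gp XX x y) (gp XX y z)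
      linarith
    · have := min_le_right (gp XX x y) (gp XX y z)
      linarith
  non := by
    refine ⟨T 1, ss * T 1 * ss⁻¹, ?_, lox_of_conj ss, ?_⟩
    · have := lox_of_conj 1
      rwa [one_mul, inv_one, mul_one] at this
    · have hpow : ∀ m : ℕ, (ss * T 1 * ss⁻¹)⁻¹ ^ m = ss * (T 1 ^ m)⁻¹ * ss⁻¹ := by
        intro m
        have : (ss * T 1 * ss⁻¹)⁻¹ = ss * (T 1)⁻¹ * ss⁻¹ := by group
        rw [this, conj_pow, inv_pow]
      have hmu : ∀ m : ℕ, mu (ss * (T 1 ^ m)⁻¹ * ss⁻¹) = 0 := by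
        intro m
        have h1 : (mu (ss * (T 1 ^ m)⁻¹ * ss⁻¹) : ℤ) ≤ 0 := by
          rw [mu_le]
          refine ⟨le_rfl, ?_, ?_⟩
          · rw [kk_mul, kk_mul, kk_inv, kk_inv, kk_pow, kk_T]
            omega
          · -- all three factors preserve the ball
            have e1 : R 0 (act ss⁻¹ 0) 0 := by
              have := nu_spec (act ss⁻¹ 0)
              rwa [(A0.inv_mem ss_mem).2] at this
            have e2 : R 0 (act (T (-(m : ℤ))) (act ss⁻¹ 0)) 0 := by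
              have := (R_act (T (-(m : ℤ)))).1 e1
              rw [kk_T, act_T_zero] at this
              exact this.mono (by omega)
            have e3 := (R_act ss).1 e2
            rw [ss_mem.1, add_zero] at e3
            have e4 : R 0 (act ss 0) 0 := by
              have := nu_spec (act ss 0)
              rwa [ss_mem.2] at this
            rw [act_mul, act_mul, ← T_neg_nat]
            exact e3.trans e4
        omega
      rintro (⟨-, h⟩ | ⟨h, -⟩)
      · obtain ⟨N, hN⟩ := h 2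
        have h1 := hN (N + 1) (N + 1) (by omega) (by omega)
        rw [hpow, inv_pow] at h1
        have h2 := gp_le ((T 1 ^ (N + 1))⁻¹) (ss * (T 1 ^ (N + 1))⁻¹ * ss⁻¹)
        have h3 : PR ((T 1 ^ (N + 1))⁻¹) (ss * (T 1 ^ (N + 1))⁻¹ * ss⁻¹) ≤ 0 := by
          unfold PR
          rw [hmu, ← T_neg_nat, mu_T]
          have h4 : 0 ≤ MM (T (-((N + 1 : ℕ) : ℤ))) (ss * T (-((N + 1 : ℕ) : ℤ)) * ss⁻¹) := by
            by_contra hneg
            have h5 := (MM_le.1 (show MM (T (-((N + 1 : ℕ) : ℤ))) (ss * T (-((N + 1 : ℕ) : ℤ)) * ss⁻¹) ≤ -1 by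
              omega)).2.2
            have h6 := h5 0 (by norm_num)
            have h7 := conj_val (m := N + 1) (by omega)
            rw [← T_neg_nat] at h7
            rw [h7] at h6
            exact absurd h6 (by norm_num [act_T_zero])
          omega
        have h8 : (PR ((T 1 ^ (N + 1))⁻¹) (ss * (T 1 ^ (N + 1))⁻¹ * ss⁻¹) : ℝ) ≤ 0 := by exact_mod_cast h3
        linarith
      · obtain ⟨N, hN⟩ := h 2
        have h1 := hN N N le_rfl le_rfl
        rw [hpow] at h1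
        have h2 := gp_le (T 1 ^ N) (ss * (T 1 ^ N)⁻¹ * ss⁻¹)
        have h3 : PR (T 1 ^ N) (ss * (T 1 ^ N)⁻¹ * ss⁻¹) ≤ 0 := by
          unfold PR
          have h4 := kk_le_MM (T 1 ^ N) (ss * (T 1 ^ N)⁻¹ * ss⁻¹)
          rw [hmu]
          rw [← T_nat, kk_T] at h4
          rw [← T_nat, mu_T]
          omega
        have h8 : (PR (T 1 ^ N) (ss * (T 1 ^ N)⁻¹ * ss⁻¹) : ℝ) ≤ 0 := by exact_mod_cast h3
        linarith
  fix := by
    intro g h hg hh
    have h1 := kk_ne_of_lox hg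
    have h2 := kk_ne_of_lox hh
    rcases lt_or_gt_of_ne h1 with h1 | h1 <;> rcases lt_or_gt_of_ne h2 with h2 | h2
    · exact Or.inr (Or.inr (Or.inr (SE_of_pos (by rw [kk_inv]; omega) (by rw [kk_inv]; omega))))
    · exact Or.inr (Or.inr (Or.inl (SE_of_pos (by rw [kk_inv]; omega) h2)))
    · exact Or.inr (Or.inl (SE_of_pos h1 (by rw [kk_inv]; omega)))
    · exact Or.inl (SE_of_pos h1 h2)

end Pool.Agent.U820.QP1
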