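import Pool.Agent.U820.QP1.Patch

set_option autoImplicit false

/-! Every length function on the group is bounded on the elements which move only points of a
region with infinite complement. -/

namespace Pool.Agent.U820.QP1

section J

variable {S : Set ℤ} (J : Option (ℕ × ℤ) × S → ℤ)

/-- the injection of the copies of `S` in the nonzero integers -/
structure Cop : Prop where
  inj : Function.Injective J
  ne0 : ∀ a, J a ≠ 0
  base : ∀ a : S, J (none, a) = a

variable {J} (hJ : Cop J)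

open Classical in
/-- the permutation of the integers which permutes the copies of `S` -/
noncomputable def Th (hJ : Cop J) (π : Equiv.Perm (Option (ℕ × ℤ))) : Equiv.Perm ℤ :=
  Equiv.Perm.extendDomain (Equiv.prodCongr π (Equiv.refl S)) (Equiv.ofInjective J hJ.inj)

theorem Th_J (π : Equiv.Perm (Option (ℕ × ℤ))) (o : Option (ℕ × ℤ)) (a : S) :
    Th hJ π (J (o, a)) = J (π o, a) := by
  classical
  unfold Th
  have := Equiv.Perm.extendDomain_apply_image (Equiv.prodCongr π (Equiv.refl S))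
    (Equiv.ofInjective J hJ.inj) (o, a)
  simpa using this

theorem Th_not (π : Equiv.Perm (Option (ℕ × ℤ))) {x : ℤ} (h : ∀ p, J p ≠ x) : Th hJ π x = x := by
  classical
  unfold Th
  apply Equiv.Perm.extendDomain_apply_not_subtype
  rintro ⟨p, hp⟩
  exact h p hp

theorem Th_zero (π : Equiv.Perm (Option (ℕ × ℤ))) : Th hJ π 0 = 0 := Th_not hJ π hJ.ne0

theorem Th_mul (π ρ : Equiv.Perm (Option (ℕ × ℤ))) : Th hJ (π * ρ) = Th hJ π * Th hJ ρ := by
  apply Equiv.ext
  intro x
  change Th hJ (π * ρ) x = Th hJ π (Th hJ ρ x)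
  by_cases h : ∃ p, J p = x
  · obtain ⟨⟨o, a⟩, rfl⟩ := h
    rw [Th_J, Th_J, Th_J]
    rfl
  · push Not at h
    rw [Th_not hJ _ h, Th_not hJ ρ h, Th_not hJ π h]

/-- the element of the group which permutes the copies of `S` -/
noncomputable def gg (hJ : Cop J) (π : Equiv.Perm (Option (ℕ × ℤ))) : G :=
  rig ⟨fun _ => Th hJ π, fun _ => Th_zero hJ π⟩

theorem gg_mul (π ρ : Equiv.Perm (Option (ℕ × ℤ))) : gg hJ (π * ρ) = gg hJ π * gg hJ ρ := by
  unfold gg
  rw [← rig_mul]
  congr 1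
  apply Subtype.ext
  funext m
  exact Th_mul hJ π ρ

theorem gg_one : gg hJ 1 = 1 := by
  have h := gg_mul hJ 1 1
  rw [one_mul] at h
  exact left_eq_mul.1 h

theorem gg_inv (π : Equiv.Perm (Option (ℕ × ℤ))) : (gg hJ π)⁻¹ = gg hJ π⁻¹ := by
  rw [inv_eq_iff_mul_eq_one, ← gg_mul, mul_inv_cancel, gg_one]

theorem kk_gg (π : Equiv.Perm (Option (ℕ × ℤ))) : kk (gg hJ π) = 0 := rfl

theorem nu_gg (π : Equiv.Perm (Option (ℕ × ℤ))) (f : Om) : nu (act (gg hJ π) f) = nu f := nu_rig _ f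

/-- the copy `o` of `S` -/
def Js (J : Option (ℕ × ℤ) × S → ℤ) (o : Option (ℕ × ℤ)) : Set ℤ := {x | ∃ a, J (o, a) = x}

include hJ in
theorem Js_none : Js J none = S := by
  ext x
  constructor
  · rintro ⟨a, rfl⟩
    rw [hJ.base]
    exact a.2
  · intro hx
    exact ⟨⟨x, hx⟩, hJ.base _⟩

theorem gg_inR {π : Equiv.Perm (Option (ℕ × ℤ))} {o : Option (ℕ × ℤ)} {f : Om}
    (h : inR (Js J o) f) : inR (Js J (π o)) (act (gg hJ π) f) := by
  refine ⟨by rw [nu_gg]; exact h.1, ?_⟩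
  obtain ⟨a, ha⟩ := h.2
  refine ⟨a, ?_⟩
  rw [nu_gg]
  unfold gg
  rw [rig_top _ h.1, ← ha]
  exact (Th_J hJ π o a).symm

theorem gg_inR_iff {π : Equiv.Perm (Option (ℕ × ℤ))} {o : Option (ℕ × ℤ)} {f : Om} :
    inR (Js J (π o)) (act (gg hJ π) f) ↔ inR (Js J o) f := by
  constructor
  · intro h
    have h1 := gg_inR hJ (π := π⁻¹) h
    rw [← gg_inv, act_inv_act] at h1
    simpa using h1
  · exact gg_inR hJ

theorem gg_fix {π : Equiv.Perm (Option (ℕ × ℤ))} {o : Option (ℕ × ℤ)} {f : Om}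
    (h : inR (Js J o) f) (ho : π o = o) : act (gg hJ π) f = f := by
  apply rig_fix
  right
  obtain ⟨a, ha⟩ := h.2
  rw [← ha]
  change Th hJ π (J (o, a)) = J (o, a)
  rw [Th_J, ho]

theorem gg_fix_not {π : Equiv.Perm (Option (ℕ × ℤ))} {f : Om}
    (h : ∀ o, ¬ inR (Js J o) f) : act (gg hJ π) f = f := by
  apply rig_fix
  by_cases h1 : 1 ≤ nu f
  · right
    exact Th_not hJ π (by
      rintro ⟨o, a⟩ ha
      exact h o ⟨h1, a, ha⟩)
  · left; omega

theorem comm_of_fix {z p : G} (hz : ∀ f, inR S f → act z f = f) (hp : p ∈ PS S) : z * p = p * z := by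
  refine G_ext (fun f => ?_) (by rw [kk_mul, kk_mul, add_comm])
  rw [act_mul, act_mul]
  by_cases hf : inR S f
  · rw [hz f hf, hz _ ((PS_inR hp).2 hf)]
  · rw [hp.2 f hf]
    have : ¬ inR S (act z f) := by
      intro h
      have h1 := hz _ h
      have h2 := act_inj z h1
      rw [h2] at h
      exact hf h
    rw [hp.2 _ this]

theorem W_indep {π ρ : Equiv.Perm (Option (ℕ × ℤ))} (h : π none = ρ none) {p : G} (hp : p ∈ PS S) :
    gg hJ π * p * (gg hJ π)⁻¹ = gg hJ ρ * p * (gg hJ ρ)⁻¹ := by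
  have h1 : gg hJ (ρ⁻¹ * π) * p = p * gg hJ (ρ⁻¹ * π) := by
    apply comm_of_fix _ hp
    intro f hf
    have hf' : inR (Js J none) f := by rw [Js_none hJ]; exact hf
    apply gg_fix hJ hf'
    rw [Equiv.Perm.mul_apply, h]
    simp
  rw [gg_mul, ← gg_inv] at h1
  calc gg hJ π * p * (gg hJ π)⁻¹ = gg hJ ρ * ((gg hJ ρ)⁻¹ * gg hJ π * p) * (gg hJ π)⁻¹ := by group
    _ = gg hJ ρ * (p * ((gg hJ ρ)⁻¹ * gg hJ π)) * (gg hJ π)⁻¹ := by rw [h1]
    _ = gg hJ ρ * p * (gg hJ ρ)⁻¹ := by group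

/-- the copy of `p` in the region `o` -/
noncomputable def Wo (hJ : Cop J) (o : Option (ℕ × ℤ)) (p : G) : G :=
  gg hJ (Equiv.swap none o) * p * (gg hJ (Equiv.swap none o))⁻¹

theorem Wo_mul (o : Option (ℕ × ℤ)) (p q : G) : Wo hJ o (p * q) = Wo hJ o p * Wo hJ o q := by
  unfold Wo; group

theorem Wo_one (o : Option (ℕ × ℤ)) : Wo hJ o 1 = 1 := by
  unfold Wo; group

theorem W_conj (π : Equiv.Perm (Option (ℕ × ℤ))) (o : Option (ℕ × ℤ)) {p : G} (hp : p ∈ PS S) :
    gg hJ π * Wo hJ o p * (gg hJ π)⁻¹ = Wo hJ (π o) p := by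
  have h := W_indep hJ (π := π * Equiv.swap none o) (ρ := Equiv.swap none (π o)) (by simp) hp
  rw [gg_mul] at h
  unfold Wo
  rw [← h]
  group

theorem Wo_mem (o : Option (ℕ × ℤ)) {p : G} (hp : p ∈ PS S) : Wo hJ o p ∈ PS (Js J o) := by
  refine ⟨?_, fun f hf => ?_⟩
  · unfold Wo
    rw [kk_mul, kk_mul, kk_inv, kk_gg, hp.1]
    simp
  · unfold Wo
    rw [act_mul, act_mul]
    have h1 : ¬ inR S (act (gg hJ (Equiv.swap none o))⁻¹ f) := by
      intro h
      apply hf
      have h' : inR (Js J none) (act (gg hJ (Equiv.swap none o))⁻¹ f) := by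
        rw [Js_none hJ]; exact h
      have h2 := gg_inR hJ (π := Equiv.swap none o) h'
      rw [act_act_inv, Equiv.swap_apply_left] at h2
      exact h2
    rw [hp.2 _ h1, act_act_inv]

open Classical in
/-- the region of a key -/
noncomputable def kap (J : Option (ℕ × ℤ) × S → ℤ) (k : ℕ × ℤ) : Option (Option (ℕ × ℤ)) :=
  if h : 1 ≤ k.1 ∧ ∃ p, J p = k.2 then some (Classical.choose h.2).1 else none

include hJ in
theorem kap_some {f : Om} {o : Option (ℕ × ℤ)} : kap J (key f) = some o ↔ inR (Js J o) f := by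
  classical
  unfold kap
  constructor
  · intro h
    split_ifs at h with h1
    · have h2 := Classical.choose_spec h1.2
      have h3 : (Classical.choose h1.2).1 = o := by simpa using h
      refine ⟨h1.1, (Classical.choose h1.2).2, ?_⟩
      rw [← h3]
      exact h2
  · rintro ⟨h1, a, ha⟩
    have h2 : 1 ≤ (key f).1 ∧ ∃ p, J p = (key f).2 := ⟨h1, _, ha⟩
    rw [dif_pos h2]
    have h3 := Classical.choose_spec h2.2
    have h4 : Classical.choose h2.2 = (o, a) := hJ.inj (h3.trans ha.symm)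
    rw [h4]

theorem kap_none {f : Om} (h : ∀ o, ¬ inR (Js J o) f) : kap J (key f) = none := by
  classical
  unfold kap
  rw [dif_neg]
  rintro ⟨h1, ⟨o, a⟩, ha⟩
  exact h o ⟨h1, a, ha⟩

/-- the family to be glued -/
noncomputable def fam (hJ : Cop J) (P : Option (ℕ × ℤ) → G) : Option (Option (ℕ × ℤ)) → G
  | none => 1
  | some o => Wo hJ o (P o)

theorem glue_fam {P : Option (ℕ × ℤ) → G} (hP : ∀ o, P o ∈ PS S) : Glue (kap J) (fam hJ P) where
  zero := fun e e' => by
    unfold kap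
    rw [dif_neg (fun h => by simpa using h.1), dif_neg (fun h => by simpa using h.1)]
  kk := fun i => by
    cases i with
    | none => rfl
    | some o => exact (Wo_mem hJ o (hP o)).1
  fw := fun f => by
    cases hf : kap J (key f) with
    | none => exact ⟨rfl, hf⟩
    | some o =>
      have h1 := Wo_mem hJ o (hP o)
      have h2 := (kap_some hJ).1 hf
      exact ⟨nu_act (PS_le_A0 _ h1) f, (kap_some hJ).2 ((PS_inR h1).2 h2)⟩
  bw := fun f => by
    cases hf : kap J (key f) with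
    | none =>
      have : act (fam hJ P none)⁻¹ f = f := by
        change act (1 : G)⁻¹ f = f
        rw [inv_one, act_one]
      rw [this]
      exact ⟨rfl, hf⟩
    | some o =>
      have h1 := (PS (Js J o)).inv_mem (Wo_mem hJ o (hP o))
      have h2 := (kap_some hJ).1 hf
      exact ⟨nu_act (PS_le_A0 _ h1) f, (kap_some hJ).2 ((PS_inR h1).2 h2)⟩

/-- the product of the copies of the `P o` -/
noncomputable def Psi (hJ : Cop J) (P : Option (ℕ × ℤ) → G) (hP : ∀ o, P o ∈ PS S) : G :=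
  (glue_fam hJ hP).el

theorem act_Psi {P : Option (ℕ × ℤ) → G} (hP : ∀ o, P o ∈ PS S) {o : Option (ℕ × ℤ)} {f : Om}
    (hf : inR (Js J o) f) : act (Psi hJ P hP) f = act (Wo hJ o (P o)) f := by
  unfold Psi
  rw [Glue.act_el, (kap_some hJ).2 hf]
  rfl

theorem act_Psi_not {P : Option (ℕ × ℤ) → G} (hP : ∀ o, P o ∈ PS S) {f : Om}
    (hf : ∀ o, ¬ inR (Js J o) f) : act (Psi hJ P hP) f = f := by
  unfold Psi
  rw [Glue.act_el, kap_none hf]
  rfl

theorem Psi_conj {P : Option (ℕ × ℤ) → G} (hP : ∀ o, P o ∈ PS S) (π : Equiv.Perm (Option (ℕ × ℤ))) :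
    gg hJ π * Psi hJ P hP * (gg hJ π)⁻¹ = Psi hJ (fun o => P (π⁻¹ o)) (fun o => hP _) := by
  refine G_ext (fun f => ?_) ?_
  · rw [act_mul, act_mul]
    by_cases h : ∃ o, inR (Js J o) f
    · obtain ⟨o, ho⟩ := h
      have h1 : inR (Js J (π⁻¹ o)) (act (gg hJ π)⁻¹ f) := by
        rw [gg_inv]
        exact gg_inR hJ ho
      rw [act_Psi hJ hP h1, act_Psi hJ (fun o => hP _) ho]
      rw [← act_mul, ← act_mul, W_conj hJ π _ (hP _)]
      simp
    · push Not at h
      have h1 : act (gg hJ π)⁻¹ f = f := by rw [gg_inv]; exact gg_fix_not hJ h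
      rw [h1, act_Psi_not hJ hP h, act_Psi_not hJ (fun o => hP _) h, gg_fix_not hJ h]
  · rw [kk_mul, kk_mul, kk_inv]
    change kk (gg hJ π) + 0 + -kk (gg hJ π) = 0
    ring

theorem Psi_mul {P Q : Option (ℕ × ℤ) → G} (hP : ∀ o, P o ∈ PS S) (hQ : ∀ o, Q o ∈ PS S) :
    Psi hJ P hP * Psi hJ Q hQ = Psi hJ (fun o => P o * Q o) (fun o => (PS S).mul_mem (hP o) (hQ o)) := by
  refine G_ext (fun f => ?_) rfl
  rw [act_mul]
  by_cases h : ∃ o, inR (Js J o) f
  · obtain ⟨o, ho⟩ := h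
    rw [act_Psi hJ hQ ho, act_Psi hJ hP ((PS_inR (Wo_mem hJ o (hQ o))).2 ho), act_Psi hJ _ ho,
      Wo_mul, act_mul]
  · push Not at h
    rw [act_Psi_not hJ hQ h, act_Psi_not hJ hP h, act_Psi_not hJ _ h]

theorem Psi_single {P : Option (ℕ × ℤ) → G} (hP : ∀ o, P o ∈ PS S) (o₀ : Option (ℕ × ℤ))
    (h1 : ∀ o, o ≠ o₀ → P o = 1) : Psi hJ P hP = Wo hJ o₀ (P o₀) := by
  have hW := Wo_mem hJ o₀ (hP o₀)
  refine G_ext (fun f => ?_) hW.1.symm
  by_cases h : ∃ o, inR (Js J o) f
  · obtain ⟨o, ho⟩ := h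
    rw [act_Psi hJ hP ho]
    by_cases e : o = o₀
    · rw [e]
    · rw [h1 o e, Wo_one, act_one]
      symm
      apply hW.2
      rintro ⟨-, a, ha⟩
      obtain ⟨-, b, hb⟩ := ho
      have := hJ.inj (ha.trans hb.symm)
      exact e (congrArg Prod.fst this).symm
  · push Not at h
    rw [act_Psi_not hJ hP h, hW.2 f (h o₀)]

/-- the shift of row `n` -/
def sn (n : ℕ) : Equiv.Perm (Option (ℕ × ℤ)) := Equiv.optionCongr
  { toFun := fun p => (p.1, if p.1 = n then p.2 + 1 else p.2)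
    invFun := fun p => (p.1, if p.1 = n then p.2 - 1 else p.2)
    left_inv := fun p => by
      obtain ⟨a, b⟩ := p
      by_cases h : a = n <;> simp [h]
    right_inv := fun p => by
      obtain ⟨a, b⟩ := p
      by_cases h : a = n <;> simp [h] }

theorem sn_inv_some (n a : ℕ) (b : ℤ) :
    (sn n)⁻¹ (some (a, b)) = some (a, if a = n then b - 1 else b) := rfl

theorem sn_inv_none (n : ℕ) : (sn n)⁻¹ none = none := rfl

/-- the family with `p n` in the places `(n, k)`, `0 ≤ k` -/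
def PP (p : ℕ → G) : Option (ℕ × ℤ) → G
  | none => 1
  | some (n, k) => if 0 ≤ k then p n else 1

theorem PP_mem {p : ℕ → G} (hp : ∀ n, p n ∈ PS S) (o : Option (ℕ × ℤ)) : PP p o ∈ PS S := by
  rcases o with _ | ⟨n, k⟩
  · exact (PS S).one_mem
  · show (if 0 ≤ k then p n else 1) ∈ PS S
    split_ifs
    · exact hp n
    · exact (PS S).one_mem

theorem extract {p : ℕ → G} (hp : ∀ n, p n ∈ PS S) (n : ℕ) :
    Psi hJ (PP p) (PP_mem hp) * (gg hJ (sn n) * Psi hJ (PP p) (PP_mem hp) * (gg hJ (sn n))⁻¹)⁻¹ =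
      Wo hJ (some (n, 0)) (p n) := by
  rw [mul_inv_eq_iff_eq_mul, Psi_conj]
  have h1 := Psi_single hJ (P := fun o => if o = some (n, 0) then p n else 1) (fun o => by
    change (if o = some (n, 0) then p n else 1) ∈ PS S
    split_ifs
    · exact hp n
    · exact (PS S).one_mem) (some (n, 0)) (fun o ho => if_neg ho)
  simp only [if_true] at h1
  rw [← h1, Psi_mul]
  congr 1
  funext o
  rcases o with _ | ⟨a, b⟩
  · simp [PP, sn_inv_none]
  · rw [sn_inv_some]
    by_cases h : a = n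
    · subst h
      by_cases hb : b = 0
      · subst hb
        simp [PP]
      · have e1 : ¬ (some (a, b) = some (a, (0 : ℤ))) := by
          intro e
          simp only [Option.some.injEq, Prod.mk.injEq, true_and] at e
          exact hb e
        rw [if_neg e1, one_mul]
        simp only [PP, if_true]
        by_cases hb' : 0 ≤ b
        · rw [if_pos hb', if_pos (by omega)]
        · rw [if_neg hb', if_neg (by omega)]
    · have e1 : ¬ (some (a, b) = some (n, (0 : ℤ))) := by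
        intro e
        simp only [Option.some.injEq, Prod.mk.injEq] at e
        exact h e.1
      rw [if_neg e1, one_mul, if_neg h]

end J

theorem exists_cop {S : Set ℤ} (h0 : (0 : ℤ) ∉ S) (hS : {x : ℤ | x ∉ S ∧ x ≠ 0}.Infinite) :
    ∃ J : Option (ℕ × ℤ) × S → ℤ, Cop J := by
  obtain ⟨e, he⟩ := exists_injective_nat ((ℕ × ℤ) × S)
  let i := hS.natEmbedding
  refine ⟨fun p => match p with
    | (none, a) => a.1
    | (some q, a) => (i (e (q, a))).1, ?_, ?_, ?_⟩
  · rintro ⟨o, a⟩ ⟨o', a'⟩ h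
    rcases o with _ | q <;> rcases o' with _ | q'
    · simp only [] at h
      rw [Subtype.ext h]
    · simp only [] at h
      exact absurd a.2 (by rw [h]; exact (i (e (q', a'))).2.1)
    · simp only [] at h
      exact absurd a'.2 (by rw [← h]; exact (i (e (q, a))).2.1)
    · simp only [] at h
      have h1 := he (i.injective (Subtype.ext h))
      rw [Prod.mk.injEq] at h1
      rw [h1.1, h1.2]
  · rintro ⟨o, a⟩
    rcases o with _ | q
    · intro h
      simp only [] at h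
      exact h0 (by rw [← h]; exact a.2)
    · exact (i (e (q, a))).2.2
  · intro a
    rfl

/-- a length function -/
structure LF (L : G → ℕ) : Prop where
  mul : ∀ x y, L (x * y) ≤ L x + L y
  inv : ∀ x, L x⁻¹ = L x

theorem bdd_PS {S : Set ℤ} (h0 : (0 : ℤ) ∉ S) (hS : {x : ℤ | x ∉ S ∧ x ≠ 0}.Infinite)
    {L : G → ℕ} (hL : LF L) : ∃ C, ∀ x ∈ PS S, L x ≤ C := by
  obtain ⟨J, hJ⟩ := exists_cop h0 hS
  by_contra hcon
  push Not at hcon
  have h1 : ∀ n : ℕ, ∃ x ∈ PS S, 2 * L (gg hJ (sn n)) +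
      2 * L (gg hJ (Equiv.swap none (some (n, 0)))) + 2 * n < L x := fun n => hcon _
  choose p hp hpL using h1
  set g := Psi hJ (PP p) (PP_mem hp) with hg
  have h2 : ∀ n : ℕ, n < L g := by
    intro n
    have h3 := extract hJ hp n
    rw [← hg] at h3
    have h4 : L (Wo hJ (some (n, 0)) (p n)) ≤ 2 * L g + 2 * L (gg hJ (sn n)) := by
      rw [← h3]
      have a1 := hL.mul g (gg hJ (sn n) * g * (gg hJ (sn n))⁻¹)⁻¹
      have a2 := hL.inv (gg hJ (sn n) * g * (gg hJ (sn n))⁻¹)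
      have a3 := hL.mul (gg hJ (sn n) * g) (gg hJ (sn n))⁻¹
      have a4 := hL.mul (gg hJ (sn n)) g
      have a5 := hL.inv (gg hJ (sn n))
      omega
    have h5 : L (p n) ≤ L (Wo hJ (some (n, 0)) (p n)) +
        2 * L (gg hJ (Equiv.swap none (some (n, 0)))) := by
      have e : p n = (gg hJ (Equiv.swap none (some (n, 0))))⁻¹ * Wo hJ (some (n, 0)) (p n) *
          gg hJ (Equiv.swap none (some (n, 0))) := by
        unfold Wo; group
      have a1 := hL.mul ((gg hJ (Equiv.swap none (some (n, 0))))⁻¹ * Wo hJ (some (n, 0)) (p n))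
        (gg hJ (Equiv.swap none (some (n, 0))))
      have a2 := hL.mul ((gg hJ (Equiv.swap none (some (n, 0))))⁻¹) (Wo hJ (some (n, 0)) (p n))
      have a3 := hL.inv (gg hJ (Equiv.swap none (some (n, 0))))
      rw [← e] at a1
      omega
    have h6 := hpL n
    omega
  exact lt_irrefl _ (h2 (L g))

end Pool.Agent.U820.QP1
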