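import Pool.Agent.U820.QP1.Cox

set_option autoImplicit false

/-! Powers of an element of linear growth in a hyperbolic length. -/

namespace Pool.Agent.U820.QP1

open Pool.Agent.R640 (len gp)

theorem exists_double {a : ℕ → ℝ} {c : ℝ} (hc : 0 < c) {C : ℝ} (h : ∀ n : ℕ, c * n - C ≤ a n) (E : ℝ) :
    ∃ N : ℕ, 1 ≤ N ∧ a N + E ≤ a (2 * N) := by
  by_contra hcon
  push Not at hcon
  have h1 : ∀ k : ℕ, a (2 ^ k) ≤ a 1 + k * E := by
    intro k
    induction k with
    | zero => simp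
    | succ k ih =>
      have h2 := hcon (2 ^ k) Nat.one_le_two_pow
      rw [← pow_succ'] at h2
      push_cast
      linarith
  have h2 : Filter.Tendsto (fun k : ℕ => (a 1 + C) * (1 / 2 : ℝ) ^ k + E * ((k : ℝ) ^ 1 / 2 ^ k))
      Filter.atTop (nhds ((a 1 + C) * 0 + E * 0)) := by
    apply Filter.Tendsto.add
    · exact (tendsto_pow_atTop_nhds_zero_of_lt_one (by norm_num) (by norm_num)).const_mul _
    · exact (tendsto_pow_const_div_const_pow_of_one_lt 1 (by norm_num)).const_mul _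
  rw [mul_zero, mul_zero, add_zero] at h2
  obtain ⟨k, hk⟩ := (h2.eventually (gt_mem_nhds hc)).exists
  have h3 := h1 k
  have h4 := h (2 ^ k)
  have h5 : (0 : ℝ) < 2 ^ k := by positivity
  push_cast at h4
  have h6 : c * 2 ^ k ≤ a 1 + C + k * E := by linarith
  have h7 : c * 2 ^ k ≤ ((a 1 + C) * (1 / 2 : ℝ) ^ k + E * ((k : ℝ) ^ 1 / 2 ^ k)) * 2 ^ k := by
    have : ((a 1 + C) * (1 / 2 : ℝ) ^ k + E * ((k : ℝ) ^ 1 / 2 ^ k)) * 2 ^ k = a 1 + C + k * E := by
      rw [pow_one, div_pow, one_pow]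
      field_simp
    rw [this]
    exact h6
  have h8 := le_of_mul_le_mul_right h7 h5
  linarith

section H

variable {H : Type} [Group H] {Y : Set H} (hY : Subgroup.closure Y = ⊤)

include hY

theorem gp_pert (x y u v : H) : gp Y (x * u) (y * v) ≤ gp Y x y + len Y u + len Y v := by
  have h1 : (len Y (x * u) : ℝ) ≤ len Y x + len Y u := by exact_mod_cast R640.len_mul_le hY x u
  have h2 : (len Y (y * v) : ℝ) ≤ len Y y + len Y v := by exact_mod_cast R640.len_mul_le hY y v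
  have h3 : (len Y (x⁻¹ * y) : ℝ) ≤ len Y u + len Y ((x * u)⁻¹ * (y * v)) + len Y v := by
    have e : x⁻¹ * y = u * ((x * u)⁻¹ * (y * v)) * v⁻¹ := by group
    have a1 := R640.len_mul_le hY (u * ((x * u)⁻¹ * (y * v))) v⁻¹
    have a2 := R640.len_mul_le hY u ((x * u)⁻¹ * (y * v))
    have a3 := R640.len_inv hY v
    rw [← e] at a1
    have : len Y (x⁻¹ * y) ≤ len Y u + len Y ((x * u)⁻¹ * (y * v)) + len Y v := by omega
    exact_mod_cast this
  unfold gp
  linarith

theorem gp_pert' (x y u v : H) : gp Y x y - len Y u - len Y v ≤ gp Y (x * u) (y * v) := by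
  have h := gp_pert hY (x * u) (y * v) u⁻¹ v⁻¹
  rw [mul_inv_cancel_right, mul_inv_cancel_right, R640.len_inv hY, R640.len_inv hY] at h
  linarith

theorem gp_le_left (x y : H) : gp Y x y ≤ len Y x := by
  have h1 : (len Y y : ℝ) ≤ len Y x + len Y (x⁻¹ * y) := by
    have := R640.len_mul_le hY x (x⁻¹ * y)
    rw [mul_inv_cancel_left] at this
    exact_mod_cast this
  unfold gp
  linarith

theorem gp_le_right (x y : H) : gp Y x y ≤ len Y y := by
  have h1 : (len Y x : ℝ) ≤ len Y y + len Y (x⁻¹ * y) := by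
    have := R640.len_mul_le hY y (x⁻¹ * y)⁻¹
    rw [show y * (x⁻¹ * y)⁻¹ = x by group, R640.len_inv hY] at this
    exact_mod_cast this
  unfold gp
  linarith

/-- the lengths of the powers of an element of linear growth are almost additive -/
theorem almost_add {δ : ℝ} (hδ : ∀ x y z : H, min (gp Y x y) (gp Y y z) - δ ≤ gp Y x z) (t : H)
    {c C : ℝ} (hc : 0 < c) (h : ∀ n : ℕ, c * n - C ≤ len Y (t ^ n)) :
    ∃ C₂ : ℝ, 0 ≤ C₂ ∧ ∀ p q : ℕ,
      (len Y (t ^ p) : ℝ) + len Y (t ^ q) ≤ len Y (t ^ (p + q)) + 2 * C₂ := by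
  have hδ0 : 0 ≤ δ := by
    have := hδ 1 1 1
    rw [min_self] at this
    linarith
  obtain ⟨N, hN, hN2⟩ := exists_double (a := fun n => (len Y (t ^ n) : ℝ)) hc h (4 * δ + 1)
  set u := t ^ N with hu
  set l : ℕ → ℝ := fun k => (len Y (u ^ k) : ℝ) with hl
  have l0 : l 0 = 0 := by
    rw [hl]
    simp only []
    rw [pow_zero, R640.len_one]
    simp
  have lnn : ∀ k, 0 ≤ l k := fun k => Nat.cast_nonneg _
  have l1 : (len Y u : ℝ) = l 1 := by rw [hl]; simp only []; rw [pow_one]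
  have l2 : l 1 + (4 * δ + 1) ≤ l 2 := by
    rw [← l1]
    have : l 2 = (len Y (t ^ (2 * N)) : ℝ) := by
      rw [hl]; simp only []; rw [hu, ← pow_mul, mul_comm]
    rw [this]
    exact hN2
  have g1 : ∀ k, gp Y u⁻¹ (u ^ k) = (l 1 + l k - l (k + 1)) / 2 := by
    intro k
    unfold gp
    rw [inv_inv, ← pow_succ', R640.len_inv hY, l1]
  have g2 : ∀ k, gp Y (u ^ (k + 1)) u = (l (k + 1) + l 1 - l k) / 2 := by
    intro k
    unfold gp
    have : (u ^ (k + 1))⁻¹ * u = (u ^ k)⁻¹ := by rw [pow_succ']; group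
    rw [this, R640.len_inv hY, l1]
  have g3 : ∀ k, gp Y u⁻¹ (u ^ (k + 1))⁻¹ = (l 1 + l (k + 1) - l k) / 2 := by
    intro k
    unfold gp
    have : (u⁻¹)⁻¹ * (u ^ (k + 1))⁻¹ = (u ^ k)⁻¹ := by rw [pow_succ]; group
    rw [this, R640.len_inv hY, R640.len_inv hY, R640.len_inv hY, l1]
  have g4 : ∀ m k, gp Y (u ^ m)⁻¹ (u ^ k) = (l m + l k - l (m + k)) / 2 := by
    intro m k
    unfold gp
    rw [inv_inv, ← pow_add, R640.len_inv hY]
  have hstep : ∀ k, l k ≤ l (k + 1) → gp Y u⁻¹ (u ^ (k + 1)) ≤ (l 1 - 2 * δ - 1) / 2 := by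
    intro k hk
    have a1 := hδ u⁻¹ (u ^ (k + 1)) u
    have a2 := g2 k
    have a3 := g1 1
    rw [pow_one] at a3
    norm_num at a3
    rw [a3, a2] at a1
    rcases min_le_iff.1 (show min (gp Y u⁻¹ (u ^ (k + 1))) ((l (k + 1) + l 1 - l k) / 2) ≤
        (l 1 + l 1 - l 2) / 2 + δ by linarith) with a4 | a4
    · linarith
    · linarith
  have hmono : ∀ k, l k ≤ l (k + 1) := by
    intro k
    induction k with
    | zero => rw [l0]; exact lnn _
    | succ k ih =>
      have a1 := hstep k ih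
      rw [g1] at a1
      linarith
  have hmk : ∀ m k, l m + l k ≤ l (m + k) + l 1 := by
    intro m k
    rcases m with _ | m
    · rw [l0, zero_add, zero_add]
      linarith [lnn 1]
    rcases k with _ | k
    · rw [l0, add_zero, add_zero]
      linarith [lnn 1]
    have a1 := hδ u⁻¹ (u ^ (m + 1))⁻¹ (u ^ (k + 1))
    have a2 := hstep k (hmono k)
    have a3 := g3 m
    have a4 := hmono m
    rcases min_le_iff.1 (show min (gp Y u⁻¹ (u ^ (m + 1))⁻¹) (gp Y (u ^ (m + 1))⁻¹ (u ^ (k + 1))) ≤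
        (l 1 - 2 * δ - 1) / 2 + δ by linarith) with a5 | a5
    · linarith
    · rw [g4] at a5
      linarith
  refine ⟨(l 1 + 4 * N * len Y t) / 2, by positivity, fun p q => ?_⟩
  -- reduction to multiples of `N`
  have hred : ∀ p : ℕ, ∃ r : ℕ, r ≤ N ∧ p = N * (p / N) + r := fun p =>
    ⟨p % N, (Nat.mod_lt _ hN).le, (Nat.div_add_mod p N).symm⟩
  obtain ⟨r, hr, hp⟩ := hred p
  obtain ⟨r', hr', hq⟩ := hred q
  set m := p / N
  set k := q / N
  have b1 : ∀ r : ℕ, (len Y (t ^ r) : ℝ) ≤ r * len Y t := by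
    intro r
    exact_mod_cast R640.len_pow_le hY t r
  have b2 : (len Y (t ^ p) : ℝ) ≤ l m + len Y (t ^ r) := by
    have := R640.len_mul_le hY (u ^ m) (t ^ r)
    rw [hu, ← pow_mul, ← pow_add, ← hp] at this
    rw [hl]
    simp only []
    rw [hu, ← pow_mul]
    exact_mod_cast this
  have b3 : (len Y (t ^ q) : ℝ) ≤ l k + len Y (t ^ r') := by
    have := R640.len_mul_le hY (u ^ k) (t ^ r')
    rw [hu, ← pow_mul, ← pow_add, ← hq] at this
    rw [hl]
    simp only []
    rw [hu, ← pow_mul]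
    exact_mod_cast this
  have b4 : l (m + k) ≤ len Y (t ^ (p + q)) + len Y (t ^ (r + r')) := by
    have h1 := R640.len_mul_le hY (t ^ (p + q)) (t ^ (r + r'))⁻¹
    have h2 : t ^ (p + q) * (t ^ (r + r'))⁻¹ = u ^ (m + k) := by
      rw [mul_inv_eq_iff_eq_mul, hu, ← pow_mul, ← pow_add]
      congr 1
      rw [hp, hq]
      ring
    rw [h2, R640.len_inv hY] at h1
    rw [hl]
    simp only []
    exact_mod_cast h1
  have b5 := b1 r
  have b6 := b1 r'
  have b7 := b1 (r + r')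
  have b8 := hmk m k
  have b9 : (0 : ℝ) ≤ len Y t := Nat.cast_nonneg _
  have b10 : (r : ℝ) * len Y t ≤ N * len Y t := mul_le_mul_of_nonneg_right (by exact_mod_cast hr) b9
  have b11 : (r' : ℝ) * len Y t ≤ N * len Y t := mul_le_mul_of_nonneg_right (by exact_mod_cast hr') b9
  push_cast at b7
  rw [add_mul] at b7
  linarith

end H

end Pool.Agent.U820.QP1
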