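import Mathlib

set_option autoImplicit false

/-! The space of the functions `ℤ → ℤ` which vanish at all large integers, with the relations
`R n` (equality above `n`), and the group of the similarities of this space. -/

namespace Pool.Agent.U820.QP1

/-- the functions `ℤ → ℤ` which vanish at all large integers -/
def Om : AddSubgroup (ℤ → ℤ) where
  carrier := {f | ∃ N : ℤ, ∀ n, N < n → f n = 0}
  zero_mem' := ⟨0, fun _ _ => rfl⟩
  add_mem' := by
    rintro f g ⟨N, hN⟩ ⟨M, hM⟩
    refine ⟨max N M, fun n hn => ?_⟩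
    rw [Pi.add_apply, hN n (lt_of_le_of_lt (le_max_left _ _) hn),
      hM n (lt_of_le_of_lt (le_max_right _ _) hn), add_zero]
  neg_mem' := by
    rintro f ⟨N, hN⟩
    refine ⟨N, fun n hn => ?_⟩
    rw [Pi.neg_apply, hN n hn, neg_zero]

/-- equality above `n` -/
def R (n : ℤ) (f g : Om) : Prop := ∀ j, n < j → f.1 j = g.1 j

theorem R.refl (n : ℤ) (f : Om) : R n f f := fun _ _ => rfl

theorem R.symm {n : ℤ} {f g : Om} (h : R n f g) : R n g f := fun j hj => (h j hj).symm

theorem R.trans {n : ℤ} {f g k : Om} (h : R n f g) (h' : R n g k) : R n f k :=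
  fun j hj => (h j hj).trans (h' j hj)

theorem R.mono {n m : ℤ} {f g : Om} (h : R n f g) (hnm : n ≤ m) : R m f g :=
  fun j hj => h j (lt_of_le_of_lt hnm hj)

theorem R_comm {n : ℤ} {f g : Om} : R n f g ↔ R n g f := ⟨R.symm, R.symm⟩

theorem exists_nu (f : Om) : ∃ m : ℕ, R m f 0 := by
  obtain ⟨N, hN⟩ := f.2
  refine ⟨N.toNat, fun j hj => ?_⟩
  rw [hN j (lt_of_le_of_lt (Int.self_le_toNat N) hj)]
  rfl

open Classical in
/-- the least `m : ℕ` such that `f` vanishes above `m` -/
noncomputable def nu (f : Om) : ℕ := Nat.find (exists_nu f)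

theorem nu_spec (f : Om) : R (nu f) f 0 := by
  classical
  exact Nat.find_spec (exists_nu f)

theorem nu_le {f : Om} {n : ℤ} : (nu f : ℤ) ≤ n ↔ 0 ≤ n ∧ R n f 0 := by
  classical
  constructor
  · intro h
    exact ⟨le_trans (Int.natCast_nonneg _) h, (nu_spec f).mono h⟩
  · rintro ⟨h0, h⟩
    obtain ⟨m, rfl⟩ := Int.eq_ofNat_of_zero_le h0
    have : nu f ≤ m := Nat.find_min' (exists_nu f) h
    exact_mod_cast this

theorem nu_zero : nu (0 : Om) = 0 := by
  have : (nu (0 : Om) : ℤ) ≤ 0 := nu_le.2 ⟨le_rfl, R.refl _ _⟩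
  omega

theorem nu_congr {f g : Om} (h : ∀ n : ℤ, 0 ≤ n → (R n f 0 ↔ R n g 0)) : nu f = nu g := by
  have h1 : (nu f : ℤ) ≤ nu g := nu_le.2 ⟨Int.natCast_nonneg _, (h _ (Int.natCast_nonneg _)).2 (nu_spec g)⟩
  have h2 : (nu g : ℤ) ≤ nu f := nu_le.2 ⟨Int.natCast_nonneg _, (h _ (Int.natCast_nonneg _)).1 (nu_spec f)⟩
  omega

theorem nu_top {f : Om} (h : 1 ≤ nu f) : f.1 (nu f) ≠ 0 := by
  intro h0
  have h1 : R ((nu f : ℤ) - 1) f 0 := by
    intro j hj
    rcases eq_or_lt_of_le (show (nu f : ℤ) ≤ j by omega) with e | e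
    · rw [← e, h0]; rfl
    · exact nu_spec f j e
  have h2 : (nu f : ℤ) ≤ (nu f : ℤ) - 1 := nu_le.2 ⟨by omega, h1⟩
  omega

theorem nu_eq {f : Om} {m : ℕ} (h : R m f 0) (h' : f.1 m ≠ 0) (_hm : 1 ≤ m) : nu f = m := by
  have h1 : (nu f : ℤ) ≤ m := nu_le.2 ⟨Int.natCast_nonneg _, h⟩
  by_contra hne
  have h2 : (nu f : ℤ) < m := by omega
  exact h' (nu_spec f m h2)

/-- the key of `f` -/
noncomputable def key (f : Om) : ℕ × ℤ := (nu f, f.1 (nu f))

theorem R_of_key_ne {f g : Om} {n : ℤ} (h : key f ≠ key g) :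
    R n f g ↔ (nu f : ℤ) ≤ n ∧ (nu g : ℤ) ≤ n := by
  constructor
  · intro hR
    by_contra hcon
    -- the larger of the two tops is above `n`
    rcases lt_trichotomy (nu f) (nu g) with hlt | heq | hlt
    · have hn : n < nu g := by
        by_contra h2
        push Not at h2
        exact hcon ⟨by omega, h2⟩
      have h3 := hR _ hn
      have h4 := nu_spec f (nu g) (by exact_mod_cast hlt)
      have h5 := nu_top (f := g) (by omega)
      rw [h4] at h3
      exact h5 h3.symm
    · have hn : n < nu f := by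
        by_contra h2
        push Not at h2
        exact hcon ⟨h2, by omega⟩
      have h3 := hR _ hn
      apply h
      unfold key
      rw [← heq, h3]
    · have hn : n < nu f := by
        by_contra h2
        push Not at h2
        exact hcon ⟨h2, by omega⟩
      have h3 := hR _ hn
      have h4 := nu_spec g (nu f) (by exact_mod_cast hlt)
      have h5 := nu_top (f := f) (by omega)
      rw [h4] at h3
      exact h5 h3
  · rintro ⟨h2, h3⟩
    exact ((nu_spec f).mono h2).trans ((nu_spec g).mono h3).symm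

/-- the similarities of the space: pairs `(e, k)` such that `e` maps `R n` to `R (n + k)` -/
def GG : Subgroup (Equiv.Perm Om × Multiplicative ℤ) where
  carrier := {p | ∀ n f g, R n f g ↔ R (n + Multiplicative.toAdd p.2) (p.1 f) (p.1 g)}
  one_mem' := by
    intro n f g
    simp
  mul_mem' := by
    intro p q hp hq n f g
    rw [hq n f g, hp]
    simp only [Prod.snd_mul, toAdd_mul, Prod.fst_mul, Equiv.Perm.coe_mul, Function.comp_apply]
    rw [show n + Multiplicative.toAdd q.2 + Multiplicative.toAdd p.2 =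
      n + (Multiplicative.toAdd p.2 + Multiplicative.toAdd q.2) by ring]
  inv_mem' := by
    intro p hp n f g
    have h := hp (n + Multiplicative.toAdd (p.2⁻¹)) ((p.1)⁻¹ f) ((p.1)⁻¹ g)
    rw [Prod.snd_inv, Prod.fst_inv, h]
    simp

/-- the group -/
abbrev G : Type := ↥GG

/-- the action -/
def act (x : G) (f : Om) : Om := x.1.1 f

/-- the exponent -/
def kk (x : G) : ℤ := Multiplicative.toAdd x.1.2

theorem R_act (x : G) {n : ℤ} {f g : Om} : R n f g ↔ R (n + kk x) (act x f) (act x g) := x.2 n f g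

theorem act_mul (x y : G) (f : Om) : act (x * y) f = act x (act y f) := rfl

theorem act_one (f : Om) : act 1 f = f := rfl

theorem act_inv_act (x : G) (f : Om) : act x⁻¹ (act x f) = f := by
  rw [← act_mul, inv_mul_cancel, act_one]

theorem act_act_inv (x : G) (f : Om) : act x (act x⁻¹ f) = f := by
  rw [← act_mul, mul_inv_cancel, act_one]

theorem act_inj (x : G) {f g : Om} (h : act x f = act x g) : f = g := by
  rw [← act_inv_act x f, h, act_inv_act]

theorem kk_mul (x y : G) : kk (x * y) = kk x + kk y := rfl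

theorem kk_one : kk 1 = 0 := rfl

theorem kk_inv (x : G) : kk x⁻¹ = -kk x := rfl

theorem G_ext {x y : G} (h : ∀ f, act x f = act y f) (hk : kk x = kk y) : x = y := by
  apply Subtype.ext
  apply Prod.ext
  · exact Equiv.ext h
  · exact Multiplicative.toAdd.injective hk

/-- the element of `G` given by a permutation and an exponent -/
def mkG (e : Equiv.Perm Om) (k : ℤ) (h : ∀ n f g, R n f g ↔ R (n + k) (e f) (e g)) : G :=
  ⟨(e, Multiplicative.ofAdd k), h⟩

theorem act_mkG (e : Equiv.Perm Om) (k : ℤ) (h : ∀ n f g, R n f g ↔ R (n + k) (e f) (e g)) (f : Om) :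
    act (mkG e k h) f = e f := rfl

theorem kk_mkG (e : Equiv.Perm Om) (k : ℤ) (h : ∀ n f g, R n f g ↔ R (n + k) (e f) (e g)) :
    kk (mkG e k h) = k := rfl

/-- the shift -/
def shF (k : ℤ) (f : Om) : Om := ⟨fun n => f.1 (n - k), by
  obtain ⟨N, hN⟩ := f.2
  exact ⟨N + k, fun n hn => hN _ (by omega)⟩⟩

theorem shF_add (k l : ℤ) (f : Om) : shF k (shF l f) = shF (k + l) f := by
  apply Subtype.ext
  funext n
  change f.1 (n - k - l) = f.1 (n - (k + l))
  rw [sub_sub]

theorem shF_zero (f : Om) : shF 0 f = f := by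
  apply Subtype.ext
  funext n
  change f.1 (n - 0) = f.1 n
  rw [sub_zero]

/-- the shift by `k` -/
def T (k : ℤ) : G := mkG
  { toFun := shF k
    invFun := shF (-k)
    left_inv := fun f => by rw [shF_add, neg_add_cancel, shF_zero]
    right_inv := fun f => by rw [shF_add, add_neg_cancel, shF_zero] } k (by
  intro n f g
  constructor
  · intro h j hj
    exact h (j - k) (by omega)
  · intro h j hj
    have := h (j + k) (by omega)
    change f.1 (j + k - k) = g.1 (j + k - k) at this
    rwa [add_sub_cancel_right] at this)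

theorem act_T (k : ℤ) (f : Om) (n : ℤ) : (act (T k) f).1 n = f.1 (n - k) := rfl

theorem kk_T (k : ℤ) : kk (T k) = k := rfl

theorem T_add (k l : ℤ) : T k * T l = T (k + l) :=
  G_ext (fun f => shF_add k l f) rfl

theorem T_zero : T 0 = 1 := G_ext (fun f => shF_zero f) rfl

theorem T_inv (k : ℤ) : (T k)⁻¹ = T (-k) := by
  rw [inv_eq_iff_mul_eq_one, T_add, add_neg_cancel, T_zero]

theorem T_pow (k : ℤ) (n : ℕ) : T k ^ n = T (n * k) := by
  induction n with
  | zero => simp [T_zero]
  | succ n ih => rw [pow_succ, ih, T_add]; congr 1; push_cast; ring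

theorem act_T_zero (k : ℤ) : act (T k) 0 = 0 := rfl

/-- the reflection `f ↦ c - f` -/
def rfl' (c : Om) : G := mkG (Equiv.subLeft c) 0 (by
  intro n f g
  rw [add_zero]
  constructor
  · intro h j hj
    change c.1 j - f.1 j = c.1 j - g.1 j
    rw [h j hj]
  · intro h j hj
    have : c.1 j - f.1 j = c.1 j - g.1 j := h j hj
    omega)

theorem act_rfl (c f : Om) : act (rfl' c) f = c - f := rfl

theorem kk_rfl (c : Om) : kk (rfl' c) = 0 := rfl

theorem rfl_inv (c : Om) : (rfl' c)⁻¹ = rfl' c := by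
  rw [inv_eq_iff_mul_eq_one]
  refine G_ext (fun f => ?_) rfl
  rw [act_mul, act_rfl, act_rfl, act_one, sub_sub_cancel]

/-- the translation `f ↦ c + f` -/
def tr (c : Om) : G := mkG (Equiv.addLeft c) 0 (by
  intro n f g
  rw [add_zero]
  constructor
  · intro h j hj
    change c.1 j + f.1 j = c.1 j + g.1 j
    rw [h j hj]
  · intro h j hj
    have : c.1 j + f.1 j = c.1 j + g.1 j := h j hj
    omega)

theorem act_tr (c f : Om) : act (tr c) f = c + f := rfl

theorem kk_tr (c : Om) : kk (tr c) = 0 := rfl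

/-- coordinatewise permutations -/
def dgF (σ : ℤ → Equiv.Perm ℤ) (h : ∀ n, σ n 0 = 0) (f : Om) : Om := ⟨fun n => σ n (f.1 n), by
  obtain ⟨N, hN⟩ := f.2
  refine ⟨N, fun n hn => ?_⟩
  change σ n (f.1 n) = 0
  rw [hN n hn, h]⟩

/-- coordinatewise permutations -/
def dg (σ : ℤ → Equiv.Perm ℤ) (h : ∀ n, σ n 0 = 0) : G := mkG
  { toFun := dgF σ h
    invFun := dgF (fun n => (σ n)⁻¹) (fun n => by rw [Equiv.Perm.inv_eq_iff_eq, h])
    left_inv := fun f => by
      apply Subtype.ext
      funext n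
      change (σ n)⁻¹ (σ n (f.1 n)) = f.1 n
      exact (σ n).symm_apply_apply _
    right_inv := fun f => by
      apply Subtype.ext
      funext n
      change (σ n) ((σ n)⁻¹ (f.1 n)) = f.1 n
      exact (σ n).apply_symm_apply _ } 0 (by
  intro n f g
  rw [add_zero]
  constructor
  · intro h j hj
    change σ j (f.1 j) = σ j (g.1 j)
    rw [h j hj]
  · intro h j hj
    exact (σ j).injective (h j hj))

theorem act_dg (σ : ℤ → Equiv.Perm ℤ) (h : ∀ n, σ n 0 = 0) (f : Om) (n : ℤ) :
    (act (dg σ h) f).1 n = σ n (f.1 n) := rfl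

theorem kk_dg (σ : ℤ → Equiv.Perm ℤ) (h : ∀ n, σ n 0 = 0) : kk (dg σ h) = 0 := rfl

theorem act_dg_inv (σ : ℤ → Equiv.Perm ℤ) (h : ∀ n, σ n 0 = 0) (f : Om) (n : ℤ) :
    (act (dg σ h)⁻¹ f).1 n = (σ n)⁻¹ (f.1 n) := rfl

end Pool.Agent.U820.QP1
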