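import Pool.Agent.U820.QP1.Om

set_option autoImplicit false

/-! Elements of the group which are given piecewise. -/

namespace Pool.Agent.U820.QP1

theorem nu_act_of {x : G} (hk : kk x = 0) (h0 : nu (act x 0) = 0) (f : Om) : nu (act x f) = nu f := by
  apply nu_congr
  intro n hn
  have h1 : R n (act x 0) 0 := (nu_spec (act x 0)).mono (by rw [h0]; exact_mod_cast hn)
  have h2 := R_act x (n := n) (f := f) (g := 0)
  rw [hk, add_zero] at h2
  rw [h2]
  exact ⟨fun h => h.trans h1.symm, fun h => h.trans h1⟩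

/-- the stabilizer of the ball of radius `0` around `0` -/
def A0 : Subgroup G where
  carrier := {x | kk x = 0 ∧ nu (act x 0) = 0}
  one_mem' := ⟨rfl, nu_zero⟩
  mul_mem' := by
    rintro x y ⟨hx, hx'⟩ ⟨hy, hy'⟩
    refine ⟨by rw [kk_mul, hx, hy, add_zero], ?_⟩
    rw [act_mul, nu_act_of hx hx', hy']
  inv_mem' := by
    rintro x ⟨hx, hx'⟩
    refine ⟨by rw [kk_inv, hx, neg_zero], ?_⟩
    rw [← nu_act_of hx hx' (act x⁻¹ 0), act_act_inv, nu_zero]

theorem mem_A0 {x : G} : x ∈ A0 ↔ kk x = 0 ∧ nu (act x 0) = 0 := Iff.rfl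

theorem nu_act {x : G} (hx : x ∈ A0) (f : Om) : nu (act x f) = nu f := nu_act_of hx.1 hx.2 f

theorem mem_A0_of_fix {x : G} (hk : kk x = 0) (h : act x 0 = 0) : x ∈ A0 := ⟨hk, by rw [h, nu_zero]⟩

section patch

variable {I : Type} (κ : ℕ × ℤ → I) (g : I → G)

/-- the condition under which the elements `g i` can be glued along the regions of `κ` -/
structure Glue : Prop where
  zero : ∀ e e' : ℤ, κ (0, e) = κ (0, e')
  kk : ∀ i, kk (g i) = 0
  fw : ∀ f, nu (act (g (κ (key f))) f) = nu f ∧ κ (key (act (g (κ (key f))) f)) = κ (key f)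
  bw : ∀ f, nu (act (g (κ (key f)))⁻¹ f) = nu f ∧ κ (key (act (g (κ (key f)))⁻¹ f)) = κ (key f)

variable {κ g}

theorem Glue.iso (h : Glue κ g) (n : ℤ) (f f' : Om) :
    R n f f' ↔ R n (act (g (κ (key f))) f) (act (g (κ (key f'))) f') := by
  by_cases he : κ (key f) = κ (key f')
  · rw [he]
    have := R_act (g (κ (key f'))) (n := n) (f := f) (g := f')
    rwa [h.kk, add_zero] at this
  · have h1 : key f ≠ key f' := fun e => he (by rw [e])
    have h2 : key (act (g (κ (key f))) f) ≠ key (act (g (κ (key f'))) f') := by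
      intro e
      apply he
      rw [← (h.fw f).2, ← (h.fw f').2, e]
    rw [R_of_key_ne h1, R_of_key_ne h2, (h.fw f).1, (h.fw f').1]

theorem Glue.inv (h : Glue κ g) : Glue κ (fun i => (g i)⁻¹) where
  zero := h.zero
  kk := fun i => by rw [kk_inv, h.kk, neg_zero]
  fw := h.bw
  bw := fun f => by simpa using h.fw f

/-- the glued element -/
noncomputable def Glue.el (h : Glue κ g) : G := mkG
  { toFun := fun f => act (g (κ (key f))) f
    invFun := fun f => act (g (κ (key f)))⁻¹ f
    left_inv := fun f => by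
      simp only []
      rw [(h.fw f).2, act_inv_act]
    right_inv := fun f => by
      simp only []
      rw [(h.bw f).2, act_act_inv] } 0 (by
    intro n f f'
    rw [add_zero]
    exact h.iso n f f')

theorem Glue.act_el (h : Glue κ g) (f : Om) : act h.el f = act (g (κ (key f))) f := rfl

theorem Glue.kk_el (h : Glue κ g) : QP1.kk h.el = 0 := rfl

theorem Glue.inv_el (h : Glue κ g) : h.el⁻¹ = h.inv.el := by
  rw [inv_eq_iff_mul_eq_one]
  refine G_ext (fun f => ?_) rfl
  rw [act_mul, act_one, Glue.act_el, Glue.act_el]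
  have := (h.bw f).2
  rw [this, act_act_inv]

theorem Glue.act_inv_el (h : Glue κ g) (f : Om) : act h.el⁻¹ f = act (g (κ (key f)))⁻¹ f := by
  rw [h.inv_el, Glue.act_el]

end patch

theorem key_zero_iff {f : Om} : (key f).1 = nu f := rfl

/-- Transitivity of `A0` on the points of a shell. -/
theorem trans_A0 {p q : Om} (h : nu p = nu q) : ∃ a ∈ A0, act a p = q := by
  classical
  by_cases hm : nu p = 0
  · refine ⟨rfl' (p + q), ⟨rfl, ?_⟩, ?_⟩
    · rw [act_rfl, sub_zero]
      have : (nu (p + q) : ℤ) ≤ 0 := by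
        rw [nu_le]
        refine ⟨le_rfl, fun j hj => ?_⟩
        have h1 := nu_spec p j (by rw [hm]; exact_mod_cast hj)
        have h2 := nu_spec q j (by rw [← h, hm]; exact_mod_cast hj)
        change p.1 j + q.1 j = 0
        rw [h1, h2]
        rfl
      omega
    · rw [act_rfl, add_sub_cancel_left]
  · have hm1 : 1 ≤ nu p := Nat.one_le_iff_ne_zero.2 hm
    set m := nu p with hmdef
    let κ : ℕ × ℤ → Bool := fun k => decide (k.1 = m ∧ (k.2 = p.1 m ∨ k.2 = q.1 m))
    let g : Bool → G := fun b => if b then rfl' (p + q) else 1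
    have hp0 : p.1 m ≠ 0 := by rw [hmdef]; exact nu_top (by rw [← hmdef]; exact hm1)
    have hq0 : q.1 m ≠ 0 := by rw [h]; exact nu_top (by rw [← h]; exact hm1)
    have key1 : ∀ f : Om, κ (key f) = true → nu (p + q - f) = nu f ∧ κ (key (p + q - f)) = true := by
      intro f hf
      have hf' : nu f = m ∧ (f.1 (nu f) = p.1 m ∨ f.1 (nu f) = q.1 m) := by
        have := of_decide_eq_true hf
        exact this
      obtain ⟨h1, h2⟩ := hf'
      rw [h1] at h2
      have h3 : (p + q - f).1 m = p.1 m ∨ (p + q - f).1 m = q.1 m := by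
        change p.1 m + q.1 m - f.1 m = p.1 m ∨ p.1 m + q.1 m - f.1 m = q.1 m
        rcases h2 with h2 | h2 <;> rw [h2]
        · right; ring
        · left; ring
      have h4 : (p + q - f).1 m ≠ 0 := by
        rcases h3 with h3 | h3 <;> rw [h3]
        · exact hp0
        · exact hq0
      have h5 : nu (p + q - f) = m := by
        apply nu_eq _ h4 hm1
        intro j hj
        change p.1 j + q.1 j - f.1 j = 0
        have e1 := nu_spec p j hj
        have e2 := nu_spec q j (by rw [← h]; exact hj)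
        have e3 := nu_spec f j (by rw [h1]; exact hj)
        rw [e1, e2, e3]
        rfl
      refine ⟨by rw [h5, h1], ?_⟩
      apply decide_eq_true
      exact ⟨h5, by change (p + q - f).1 (nu (p + q - f)) = _ ∨ (p + q - f).1 (nu (p + q - f)) = _; rw [h5]; exact h3⟩
    have hG : Glue κ g := by
      refine ⟨fun e e' => ?_, fun i => ?_, fun f => ?_, fun f => ?_⟩
      · have : ∀ e : ℤ, κ (0, e) = false := fun e => decide_eq_false (fun hh => by
          have := hh.1
          simp only [] at this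
          omega)
        rw [this, this]
      · cases i
        · exact rfl
        · exact rfl
      · cases hf : κ (key f) with
        | false => exact ⟨rfl, hf⟩
        | true => exact key1 f hf
      · cases hf : κ (key f) with
        | false =>
          have : act (g false)⁻¹ f = f := by
            change act (1 : G)⁻¹ f = f
            rw [inv_one, act_one]
          rw [this]
          exact ⟨rfl, hf⟩
        | true =>
          have : act (g true)⁻¹ f = p + q - f := by
            change act (rfl' (p + q))⁻¹ f = _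
            rw [rfl_inv, act_rfl]
          rw [this]
          exact key1 f hf
    have hκ0 : κ (key 0) = false := decide_eq_false (fun hh => by
      have : nu (0 : Om) = m := hh.1
      rw [nu_zero] at this
      omega)
    have hκp : κ (key p) = true := decide_eq_true ⟨rfl, Or.inl rfl⟩
    refine ⟨hG.el, mem_A0_of_fix hG.kk_el ?_, ?_⟩
    · rw [hG.act_el, hκ0]; rfl
    · rw [hG.act_el, hκp]
      change act (rfl' (p + q)) p = q
      rw [act_rfl, add_sub_cancel_left]

/-- the permutations of the top value -/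
def Top : Subgroup (ℕ → Equiv.Perm ℤ) where
  carrier := {σ | ∀ m, σ m 0 = 0}
  one_mem' := fun _ => rfl
  mul_mem' := by
    intro σ τ hσ hτ m
    change σ m (τ m 0) = 0
    rw [hτ m, hσ m]
  inv_mem' := by
    intro σ hσ m
    change (σ m)⁻¹ 0 = 0
    rw [Equiv.Perm.inv_eq_iff_eq, hσ m]

/-- `σ m` in coordinate `m` -/
noncomputable def one1 (σ : Top) (m : ℕ) : G :=
  dg (fun n => if n = (m : ℤ) ∧ 1 ≤ m then σ.1 m else 1) (fun n => by
    split_ifs with h
    · exact σ.2 m
    · rfl)

theorem act_one1 (σ : Top) (m : ℕ) (f : Om) (n : ℤ) :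
    (act (one1 σ m) f).1 n = if n = (m : ℤ) ∧ 1 ≤ m then σ.1 m (f.1 n) else f.1 n := by
  unfold one1
  rw [act_dg]
  split_ifs <;> rfl

theorem one1_inv (σ : Top) (m : ℕ) : (one1 σ m)⁻¹ = one1 σ⁻¹ m := by
  rw [inv_eq_iff_mul_eq_one]
  refine G_ext (fun f => ?_) rfl
  apply Subtype.ext
  funext n
  rw [act_mul, act_one1, act_one1, act_one]
  split_ifs with h
  · exact (σ.1 m).apply_symm_apply _
  · rfl

theorem nu_one1 (σ : Top) (f : Om) : nu (act (one1 σ (nu f)) f) = nu f := by
  by_cases hm : 1 ≤ nu f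
  · apply nu_eq _ _ hm
    · intro j hj
      rw [act_one1, if_neg (fun hh => by omega), nu_spec f j hj]
    · rw [act_one1, if_pos ⟨rfl, hm⟩]
      intro h0
      have h1 : σ.1 (nu f) (f.1 (nu f)) = σ.1 (nu f) 0 := by rw [h0, σ.2]
      exact nu_top hm ((σ.1 (nu f)).injective h1)
  · have h0 : nu f = 0 := by omega
    have : act (one1 σ (nu f)) f = f := by
      apply Subtype.ext
      funext n
      rw [act_one1, if_neg (fun hh => hm hh.2)]
    rw [this]

theorem glue_top (σ : Top) : Glue (fun k : ℕ × ℤ => k.1) (fun m => one1 σ m) where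
  zero := fun _ _ => rfl
  kk := fun _ => rfl
  fw := fun f => ⟨nu_one1 σ f, nu_one1 σ f⟩
  bw := fun f => by
    change nu (act (one1 σ (nu f))⁻¹ f) = nu f ∧ nu (act (one1 σ (nu f))⁻¹ f) = nu f
    rw [one1_inv]
    exact ⟨nu_one1 _ f, nu_one1 _ f⟩

/-- permutation of the top values -/
noncomputable def rig (σ : Top) : G := (glue_top σ).el

theorem kk_rig (σ : Top) : kk (rig σ) = 0 := rfl

theorem act_rig (σ : Top) (f : Om) : act (rig σ) f = act (one1 σ (nu f)) f := rfl

theorem nu_rig (σ : Top) (f : Om) : nu (act (rig σ) f) = nu f := nu_one1 σ f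

theorem rig_top (σ : Top) {f : Om} (h : 1 ≤ nu f) :
    (act (rig σ) f).1 (nu f) = σ.1 (nu f) (f.1 (nu f)) := by
  rw [act_rig, act_one1, if_pos ⟨rfl, h⟩]

theorem rig_other (σ : Top) {f : Om} {n : ℤ} (h : n ≠ nu f) : (act (rig σ) f).1 n = f.1 n := by
  rw [act_rig, act_one1, if_neg (fun hh => h hh.1)]

theorem rig_fix (σ : Top) {f : Om} (h : nu f = 0 ∨ σ.1 (nu f) (f.1 (nu f)) = f.1 (nu f)) :
    act (rig σ) f = f := by
  apply Subtype.ext
  funext n
  by_cases hn : n = nu f
  · rcases h with h | h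
    · rw [act_rig, act_one1, if_neg (fun hh => by omega)]
    · by_cases h1 : 1 ≤ nu f
      · rw [hn, rig_top σ h1, h]
      · rw [act_rig, act_one1, if_neg (fun hh => h1 hh.2)]
  · exact rig_other σ hn

theorem rig_mul (σ τ : Top) : rig (σ * τ) = rig σ * rig τ := by
  refine G_ext (fun f => ?_) rfl
  apply Subtype.ext
  funext n
  rw [act_mul]
  by_cases h1 : 1 ≤ nu f
  · by_cases hn : n = nu f
    · subst hn
      rw [rig_top _ h1]
      have h2 := rig_top σ (f := act (rig τ) f) (by rw [nu_rig]; exact h1)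
      rw [nu_rig, rig_top τ h1] at h2
      rw [h2]
      rfl
    · rw [rig_other _ hn, rig_other _ (by rw [nu_rig]; exact hn), rig_other _ hn]
  · have h0 : nu f = 0 := by omega
    rw [rig_fix (σ * τ) (Or.inl h0), rig_fix τ (Or.inl h0), rig_fix σ (Or.inl h0)]

theorem rig_one : rig 1 = 1 := G_ext (fun _ => rig_fix _ (Or.inr rfl)) rfl

theorem rig_inv (σ : Top) : (rig σ)⁻¹ = rig σ⁻¹ := by
  rw [inv_eq_iff_mul_eq_one, ← rig_mul, mul_inv_cancel, rig_one]

theorem rig_mem (σ : Top) : rig σ ∈ A0 := mem_A0_of_fix rfl (rig_fix σ (Or.inl nu_zero))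

/-- `f` lies in the region of the set `S` of top values -/
def inR (S : Set ℤ) (f : Om) : Prop := 1 ≤ nu f ∧ f.1 (nu f) ∈ S

/-- the elements which move only points of the region of `S` -/
def PS (S : Set ℤ) : Subgroup G where
  carrier := {x | kk x = 0 ∧ ∀ f, ¬ inR S f → act x f = f}
  one_mem' := ⟨rfl, fun _ _ => rfl⟩
  mul_mem' := by
    rintro x y ⟨hx, hx'⟩ ⟨hy, hy'⟩
    refine ⟨by rw [kk_mul, hx, hy, add_zero], fun f hf => ?_⟩
    rw [act_mul, hy' f hf, hx' f hf]
  inv_mem' := by
    rintro x ⟨hx, hx'⟩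
    refine ⟨by rw [kk_inv, hx, neg_zero], fun f hf => ?_⟩
    conv_lhs => rw [← hx' f hf]
    rw [act_inv_act]

theorem PS_mono {S S' : Set ℤ} (h : S ⊆ S') : PS S ≤ PS S' :=
  fun _ hx => ⟨hx.1, fun f hf => hx.2 f (fun hh => hf ⟨hh.1, h hh.2⟩)⟩

theorem PS_le_A0 (S : Set ℤ) : PS S ≤ A0 := fun x hx =>
  mem_A0_of_fix hx.1 (hx.2 0 (fun hh => by have := hh.1; rw [nu_zero] at this; omega))

theorem PS_inR {S : Set ℤ} {x : G} (hx : x ∈ PS S) {f : Om} : inR S (act x f) ↔ inR S f := by
  constructor
  · intro h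
    by_contra hf
    rw [hx.2 f hf] at h
    exact hf h
  · intro h
    by_contra hf
    have h1 := hx.2 _ hf
    have h2 := act_inj x h1
    rw [h2] at hf
    exact hf h

theorem rig_mem_PS (σ : Top) {S : Set ℤ} (h : ∀ m, ∀ e ∉ S, σ.1 m e = e) : rig σ ∈ PS S := by
  refine ⟨rfl, fun f hf => ?_⟩
  apply rig_fix
  by_cases h1 : 1 ≤ nu f
  · right
    exact h _ _ (fun h2 => hf ⟨h1, h2⟩)
  · left; omega

end Pool.Agent.U820.QP1
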